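import Pool.Agent.U334.CC.Short2

/-!
# Clusters of squarefree congruent numbers in short intervals: the pattern theorem
-/

set_option autoImplicit false

open Finset

namespace Pool.Agent.U334.CC

/-- the choice of `L` and `T` for given `X` -/
theorem choose_LT {b Q K : ℕ} (hb : 1 ≤ b) (hQ : 1 ≤ Q) (hK : 1 ≤ K) (L0 : ℕ) {X : ℝ}
    (hX : (((L0 + b * Q * K + 3 : ℕ) : ℝ)) ^ 12 ≤ X) :
    ∃ L T : ℕ, L0 ≤ L ∧ 1 ≤ L ∧ 1 ≤ T ∧ (L : ℝ) ≤ X ^ (1 / 12 : ℝ) ∧ X ^ (1 / 12 : ℝ) ≤ 2 * L ∧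
      L ^ 3 ≤ 2 * Q * b * T ∧ T ≤ 11 * L ^ 3 ∧
      X + ((b ^ 3 * (Q * K) ^ 4 : ℕ) : ℝ) ≤ ((b * (1 + Q * T) ^ 4 : ℕ) : ℝ) ∧
      ((b * (1 + Q * (T - 1)) ^ 4 : ℕ) : ℝ) ≤ X + 1 + ((b ^ 3 * (Q * K) ^ 4 : ℕ) : ℝ) := by
  have hX0 : 0 ≤ X := le_trans (by positivity) hX
  set E : ℕ := b ^ 3 * (Q * K) ^ 4 with hE
  set Y : ℝ := X ^ (1 / 12 : ℝ) with hY
  have hY0 : 0 ≤ Y := Real.rpow_nonneg hX0 _
  have hY12 : Y ^ 12 = X := by
    rw [hY, ← Real.rpow_natCast, ← Real.rpow_mul hX0]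
    norm_num
  set L : ℕ := ⌊Y⌋₊ with hL
  have hLY : (L : ℝ) ≤ Y := Nat.floor_le hY0
  have hYL : Y < L + 1 := Nat.lt_floor_add_one Y
  have hL0Y : ((L0 + b * Q * K + 3 : ℕ) : ℝ) ≤ Y := by
    have h1 : (((L0 + b * Q * K + 3 : ℕ) : ℝ)) ^ 12 ≤ Y ^ 12 := by rw [hY12]; exact hX
    exact (pow_le_pow_iff_left₀ (by positivity) hY0 (by norm_num)).1 h1
  have hLL : L0 + b * Q * K + 3 ≤ L := Nat.le_floor hL0Y
  have hL1 : 1 ≤ L := by omega
  have hL1r : (1 : ℝ) ≤ L := by exact_mod_cast hL1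
  have hLX : (L : ℝ) ^ 12 ≤ X := by
    rw [← hY12]; exact pow_le_pow_left₀ (by positivity) hLY 12
  have hY2 : Y ≤ 2 * L := by linarith
  have hXL : X ≤ (2 * (L : ℝ)) ^ 12 := by
    rw [← hY12]; exact pow_le_pow_left₀ hY0 hY2 12
  have hexT : ∃ T : ℕ, ⌈X⌉₊ + E ≤ b * (1 + Q * T) ^ 4 := by
    refine ⟨⌈X⌉₊ + E, ?_⟩
    generalize ⌈X⌉₊ + E = U
    calc U ≤ Q * U := Nat.le_mul_of_pos_left _ (by omega)
      _ ≤ 1 + Q * U := by omega
      _ ≤ (1 + Q * U) ^ 4 := Nat.le_self_pow (by norm_num) _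
      _ ≤ b * (1 + Q * U) ^ 4 := Nat.le_mul_of_pos_left _ (by omega)
  obtain ⟨T, hT1, hmin⟩ : ∃ T : ℕ, ⌈X⌉₊ + E ≤ b * (1 + Q * T) ^ 4 ∧
      ∀ S : ℕ, S < T → ¬ ⌈X⌉₊ + E ≤ b * (1 + Q * S) ^ 4 := by
    classical
    exact ⟨Nat.find hexT, Nat.find_spec hexT, fun S hS => Nat.find_min hexT hS⟩
  have hceil : X ≤ ⌈X⌉₊ := Nat.le_ceil X
  have hceil' : (⌈X⌉₊ : ℝ) < X + 1 := Nat.ceil_lt_add_one hX0
  have hLc : L ^ 12 ≤ ⌈X⌉₊ := by
    have : ((L ^ 12 : ℕ) : ℝ) ≤ ⌈X⌉₊ := by push_cast; linarith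
    exact_mod_cast this
  have hcL : ⌈X⌉₊ ≤ (2 * L) ^ 12 := Nat.ceil_le.2 (by push_cast; exact hXL)
  have hbQK : b * Q * K ≤ L := by omega
  have hbL : b < L := by
    have h1 : b ≤ b * Q * K := by
      calc b ≤ b * Q := Nat.le_mul_of_pos_right _ (by omega)
        _ ≤ b * Q * K := Nat.le_mul_of_pos_right _ (by omega)
    omega
  have hT0 : 1 ≤ T := by
    by_contra hcon
    have h0 : T = 0 := by omega
    rw [h0] at hT1
    simp only [mul_zero, add_zero, one_pow, mul_one] at hT1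
    have h1 : L ≤ L ^ 12 := Nat.le_self_pow (by norm_num) _
    omega
  have hEL : E ≤ L ^ 12 := by
    calc E ≤ b * (b ^ 3 * (Q * K) ^ 4) := Nat.le_mul_of_pos_left _ (by omega)
      _ = (b * Q * K) ^ 4 := by ring
      _ ≤ L ^ 4 := Nat.pow_le_pow_left hbQK 4
      _ ≤ L ^ 12 := Nat.pow_le_pow_right hL1 (by norm_num)
  refine ⟨L, T, by omega, hL1, hT0, hLY, hY2, ?_, ?_, ?_, ?_⟩
  · have h1 : (L ^ 3) ^ 4 ≤ (2 * Q * b * T) ^ 4 := by
      calc (L ^ 3) ^ 4 = L ^ 12 := by ring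
        _ ≤ ⌈X⌉₊ + E := by omega
        _ ≤ b * (1 + Q * T) ^ 4 := hT1
        _ ≤ b ^ 4 * (2 * (Q * T)) ^ 4 := by
            apply Nat.mul_le_mul
            · exact Nat.le_self_pow (by norm_num) _
            · apply Nat.pow_le_pow_left
              have : 1 ≤ Q * T := Nat.mul_pos (by omega) (by omega)
              omega
        _ = (2 * Q * b * T) ^ 4 := by ring
    exact (Nat.pow_le_pow_iff_left (by norm_num)).1 h1
  · have h1 := hmin (T - 1) (by omega)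
    push Not at h1
    have h2 : (T - 1) ^ 4 ≤ (10 * L ^ 3) ^ 4 := by
      calc (T - 1) ^ 4 ≤ (1 + Q * (T - 1)) ^ 4 := by
            apply Nat.pow_le_pow_left
            have : T - 1 ≤ Q * (T - 1) := Nat.le_mul_of_pos_left _ (by omega)
            omega
        _ ≤ b * (1 + Q * (T - 1)) ^ 4 := Nat.le_mul_of_pos_left _ (by omega)
        _ ≤ ⌈X⌉₊ + E := h1.le
        _ ≤ (2 * L) ^ 12 + L ^ 12 := by omega
        _ = 4097 * L ^ 12 := by ring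
        _ ≤ 10000 * L ^ 12 := Nat.mul_le_mul_right _ (by norm_num)
        _ = (10 * L ^ 3) ^ 4 := by ring
    have h3 := (Nat.pow_le_pow_iff_left (by norm_num)).1 h2
    have h4 : 1 ≤ L ^ 3 := Nat.one_le_pow _ _ (by omega)
    omega
  · have h1 : ((⌈X⌉₊ + E : ℕ) : ℝ) ≤ ((b * (1 + Q * T) ^ 4 : ℕ) : ℝ) := by exact_mod_cast hT1
    rw [Nat.cast_add] at h1
    linarith
  · have h1 := hmin (T - 1) (by omega)
    push Not at h1
    have h2 : ((b * (1 + Q * (T - 1)) ^ 4 : ℕ) : ℝ) ≤ ((⌈X⌉₊ + E : ℕ) : ℝ) := by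
      exact_mod_cast h1.le
    rw [Nat.cast_add] at h2
    linarith

/-- **Fixed patterns in short intervals.** -/
theorem patternS {b M : ℕ} (hb : Squarefree b) (hM : 1 ≤ M) (P : ℕ → Prop)
    (hP : ∀ n b x y : ℕ, 0 < n → 0 < b → 0 < x → 0 < y →
      (n : ℤ) = b * ((x : ℤ) ^ 4 - b ^ 2 * (y : ℤ) ^ 4) → P n) (K : ℕ) (hK : 1 ≤ K) :
    ∃ H : Finset ℕ, H.card = K ∧ ∃ D X₀ : ℝ, ∀ X : ℝ, X₀ ≤ X →
      (1 / 4) * X ^ (1 / 6 : ℝ) ≤ ({n : ℕ | X ≤ (n : ℝ) ∧ (n : ℝ) ≤ X + D * X ^ (11 / 12 : ℝ) ∧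
        ∀ h ∈ H, Squarefree (n + h) ∧ n + h ≡ b [MOD M] ∧ P (n + h)}.ncard : ℝ) := by
  classical
  have hb1 : 1 ≤ b := Nat.one_le_iff_ne_zero.2 hb.ne_zero
  set z := 24 * K + b + M with hz
  set Q := M * z.factorial with hQdef
  have ok : Ok b Q z := ok_exists hb hM (by omega) (by omega) (by omega)
  have hQ1 : 1 ≤ Q := by have := ok.hQ; omega
  have hMQ : M ∣ Q := Dvd.intro _ rfl
  clear_value Q z
  have hKr : (1 : ℝ) ≤ K := by exact_mod_cast hK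
  have hbr : (1 : ℝ) ≤ b := by exact_mod_cast hb1
  have hQr : (1 : ℝ) ≤ Q := by exact_mod_cast hQ1
  set E : ℕ := b ^ 3 * (Q * K) ^ 4 with hE
  set D1 : ℕ := 4 * b * Q * (2041 * K * Q ^ 2) * (2197 * Q ^ 3) with hD1
  set L0 : ℕ := 8160 * b ^ 2 * Q ^ 5 * K ^ 3 with hL0
  refine ⟨(Icc 1 K).image fun w => b ^ 3 * Q ^ 4 * (K ^ 4 - w ^ 4), ?_,
    1 + E + D1, (((L0 + b * Q * K + 3 : ℕ) : ℝ)) ^ 12, ?_⟩
  · rw [Finset.card_image_of_injOn]
    · simp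
    · intro w hw w' hw' he
      have h1 := Finset.mem_Icc.1 (Finset.mem_coe.1 hw)
      have h2 := Finset.mem_Icc.1 (Finset.mem_coe.1 hw')
      have h3 : K ^ 4 - w ^ 4 = K ^ 4 - w' ^ 4 := Nat.eq_of_mul_eq_mul_left (by positivity) he
      have h4 : w ^ 4 ≤ K ^ 4 := Nat.pow_le_pow_left h1.2 4
      have h5 : w' ^ 4 ≤ K ^ 4 := Nat.pow_le_pow_left h2.2 4
      have h6 : w ^ 4 = w' ^ 4 := by omega
      exact Nat.pow_left_injective (by norm_num) h6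
  intro X hX
  obtain ⟨L, T, hLL, hL1, hT1, hLY, hYL, hLT, hTL, hXT, hTX⟩ := choose_LT hb1 hQ1 hK L0 hX
  have hX0 : 0 ≤ X := le_trans (by positivity) hX
  rw [← hE] at hXT hTX
  set Y : ℝ := X ^ (1 / 12 : ℝ) with hY
  have hY0 : 0 ≤ Y := Real.rpow_nonneg hX0 _
  have hY2 : X ^ (1 / 6 : ℝ) = Y ^ 2 := by
    rw [hY, ← Real.rpow_natCast, ← Real.rpow_mul hX0]
    norm_num
  have hY11 : X ^ (11 / 12 : ℝ) = Y ^ 11 := by
    rw [hY, ← Real.rpow_natCast, ← Real.rpow_mul hX0]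
    norm_num
  rw [hY2, hY11]
  have hLr : (1 : ℝ) ≤ L := by exact_mod_cast hL1
  set N : ℕ := 2040 * K * Q ^ 2 * L ^ 2 with hN
  have hN1 : 1 ≤ N := Nat.one_le_iff_ne_zero.2 (by positivity)
  have hNL : N ≤ L ^ 3 := by
    have h1 : 2040 * K * Q ^ 2 ≤ L := by
      refine le_trans ?_ hLL
      rw [hL0]
      calc 2040 * K * Q ^ 2 = 2040 * (1 * Q ^ 2 * K ^ 1) := by ring
        _ ≤ 8160 * (b ^ 2 * Q ^ 5 * K ^ 3) := by
            apply Nat.mul_le_mul (by norm_num)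
            apply Nat.mul_le_mul
            · apply Nat.mul_le_mul
              · exact Nat.one_le_pow _ _ (by omega)
              · exact Nat.pow_le_pow_right hQ1 (by norm_num)
            · exact Nat.pow_le_pow_right hK (by norm_num)
        _ = _ := by ring
    calc N = (2040 * K * Q ^ 2) * L ^ 2 := by rw [hN]
      _ ≤ L * L ^ 2 := Nat.mul_le_mul_right _ h1
      _ = L ^ 3 := by ring
  have hcN : 2 * (b * (Q * K) ^ 2) * N ≤ T := by
    have h1 : (2 * Q * b) * (2 * (b * (Q * K) ^ 2) * N) ≤ (2 * Q * b) * T := by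
      calc (2 * Q * b) * (2 * (b * (Q * K) ^ 2) * N) = L0 * L ^ 2 := by
            rw [hN, hL0]; ring
        _ ≤ L * L ^ 2 := Nat.mul_le_mul_right _ hLL
        _ = L ^ 3 := by ring
        _ ≤ 2 * Q * b * T := hLT
    exact Nat.le_of_mul_le_mul_left h1 (by positivity)
  have hbound : 1 + Q * (T + N) ≤ 13 * Q * L ^ 3 := by
    have h1 : T + N ≤ 12 * L ^ 3 := by omega
    have h2 : Q * (T + N) ≤ Q * (12 * L ^ 3) := Nat.mul_le_mul_left _ h1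
    have h3 : 1 ≤ Q * L ^ 3 := Nat.one_le_iff_ne_zero.2 (by positivity)
    calc 1 + Q * (T + N) ≤ Q * L ^ 3 + Q * (12 * L ^ 3) := Nat.add_le_add h3 h2
      _ = _ := by ring
  have hC : 2 * (1 + Q * (T + N)) ^ 2 ≤ (338 * Q ^ 2) * L ^ 6 := by
    calc 2 * (1 + Q * (T + N)) ^ 2 ≤ 2 * (13 * Q * L ^ 3) ^ 2 :=
          Nat.mul_le_mul_left _ (Nat.pow_le_pow_left hbound 2)
      _ = _ := by ring
  have hall := card_allS (K := K) ok (by omega) hL1 hN1 hcN hC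
  have hzr : (24 : ℝ) * K ≤ z := by
    have : 24 * K ≤ z := by omega
    exact_mod_cast this
  have hNr : (N : ℝ) = 2040 * K * Q ^ 2 * L ^ 2 := by rw [hN]; push_cast; ring
  have hgood : (L : ℝ) ^ 2 ≤ (AllS b Q T N K).card := by
    have h1 : (K : ℝ) * (2 * (2 * N / z)) ≤ N / 6 := by
      have h2 : (K : ℝ) * (2 * (2 * N / z)) = (4 * K * N) / z := by ring
      rw [h2, div_le_div_iff₀ (by linarith) (by norm_num)]
      have hN0 : (0 : ℝ) ≤ N := by positivity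
      nlinarith
    have h3 : (K : ℝ) * (2 * (2 * (L : ℝ) ^ 2 + ((338 * Q ^ 2 : ℕ) : ℝ) * L ^ 2)) ≤ N / 3 := by
      push_cast
      rw [hNr]
      have h4 : (1 : ℝ) ≤ (Q : ℝ) ^ 2 := one_le_pow₀ hQr
      have h5 : (K : ℝ) * L ^ 2 ≤ K * L ^ 2 * Q ^ 2 := le_mul_of_one_le_right (by positivity) h4
      nlinarith
    have h6 : (K : ℝ) * (2 * (2 * N / z + 2 * L ^ 2 + ((338 * Q ^ 2 : ℕ) : ℝ) * L ^ 2)) =
        (K : ℝ) * (2 * (2 * N / z)) +
          (K : ℝ) * (2 * (2 * (L : ℝ) ^ 2 + ((338 * Q ^ 2 : ℕ) : ℝ) * L ^ 2)) := by ring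
    rw [h6] at hall
    have h7 : (L : ℝ) ^ 2 ≤ N / 2 := by
      rw [hNr]
      have h8 : (1 : ℝ) ≤ K * (Q : ℝ) ^ 2 := by
        have := one_le_pow₀ hQr (n := 2)
        nlinarith
      have h9 : (0 : ℝ) ≤ (L : ℝ) ^ 2 := by positivity
      nlinarith
    linarith
  set G := AllS b Q T N K with hG
  have hbKT : b * K ≤ T := by
    refine le_trans ?_ hcN
    calc b * K ≤ (b * (Q * K) ^ 2) := by
          apply Nat.mul_le_mul_left
          calc K ≤ Q * K := Nat.le_mul_of_pos_left _ (by omega)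
            _ ≤ (Q * K) ^ 2 := Nat.le_self_pow (by norm_num) _
      _ ≤ 2 * (b * (Q * K) ^ 2) := by omega
      _ ≤ 2 * (b * (Q * K) ^ 2) * N := Nat.le_mul_of_pos_right _ (by omega)
  have hGt : ∀ t ∈ G, T < t ∧ t ≤ T + N ∧ ∀ w ∈ Icc 1 K, Squarefree (nn b Q t w).natAbs := by
    intro t ht
    rw [hG] at ht
    unfold AllS at ht
    simp only [Finset.mem_filter, Finset.mem_Ioc] at ht
    exact ⟨ht.1.1, ht.1.2, fun w hw => ht.2 w hw⟩
  set S := {n : ℕ | X ≤ (n : ℝ) ∧ (n : ℝ) ≤ X + (1 + E + D1) * Y ^ 11 ∧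
    ∀ h ∈ (Icc 1 K).image fun w => b ^ 3 * Q ^ 4 * (K ^ 4 - w ^ 4),
    Squarefree (n + h) ∧ n + h ≡ b [MOD M] ∧ P (n + h)} with hS
  have hSfin : S.Finite := by
    apply (Set.finite_Iic ⌊X + (1 + E + D1) * Y ^ 11⌋₊).subset
    intro Z hZ
    exact Nat.le_floor hZ.2.1
  have hup : ((b * (1 + Q * (T + N)) ^ 4 : ℕ) : ℝ) ≤ X + (1 + E + D1) * Y ^ 11 := by
    have h1 : b * (1 + Q * (T + N)) ^ 4 ≤ b * (1 + Q * (T - 1)) ^ 4 + D1 * L ^ 11 := by
      have e1 : 1 + Q * (T + N) = (1 + Q * (T - 1)) + Q * (N + 1) := by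
        have : T + N = (T - 1) + (N + 1) := by omega
        rw [this]; ring
      set u := 1 + Q * (T - 1) with hu
      set v := 1 + Q * (T + N) with hv
      have huv : u ≤ v := by rw [e1]; omega
      have h2 : v ^ 4 ≤ u ^ 4 + 4 * (Q * (N + 1)) * v ^ 3 := by
        have h3 : v ^ 4 = u ^ 4 + (Q * (N + 1)) * (v ^ 3 + v ^ 2 * u + v * u ^ 2 + u ^ 3) := by
          rw [e1]; ring
        have h4 : v ^ 2 * u ≤ v ^ 3 := by
          calc v ^ 2 * u ≤ v ^ 2 * v := Nat.mul_le_mul_left _ huv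
            _ = v ^ 3 := by ring
        have h5 : v * u ^ 2 ≤ v ^ 3 := by
          calc v * u ^ 2 ≤ v * v ^ 2 := Nat.mul_le_mul_left _ (Nat.pow_le_pow_left huv 2)
            _ = v ^ 3 := by ring
        have h6 : u ^ 3 ≤ v ^ 3 := Nat.pow_le_pow_left huv 3
        have h7 : v ^ 3 + v ^ 2 * u + v * u ^ 2 + u ^ 3 ≤ 4 * v ^ 3 := by omega
        calc v ^ 4 = u ^ 4 + (Q * (N + 1)) * (v ^ 3 + v ^ 2 * u + v * u ^ 2 + u ^ 3) := h3
          _ ≤ u ^ 4 + (Q * (N + 1)) * (4 * v ^ 3) :=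
              Nat.add_le_add_left (Nat.mul_le_mul_left _ h7) _
          _ = _ := by ring
      have h8 : N + 1 ≤ 2041 * K * Q ^ 2 * L ^ 2 := by
        have h9 : 1 ≤ K * Q ^ 2 * L ^ 2 := Nat.one_le_iff_ne_zero.2 (by positivity)
        calc N + 1 ≤ 2040 * K * Q ^ 2 * L ^ 2 + K * Q ^ 2 * L ^ 2 := by rw [hN]; omega
          _ = _ := by ring
      calc b * v ^ 4 ≤ b * (u ^ 4 + 4 * (Q * (N + 1)) * v ^ 3) := Nat.mul_le_mul_left _ h2
        _ = b * u ^ 4 + 4 * b * Q * (N + 1) * v ^ 3 := by ring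
        _ ≤ b * u ^ 4 + 4 * b * Q * (2041 * K * Q ^ 2 * L ^ 2) * (13 * Q * L ^ 3) ^ 3 := by
            apply Nat.add_le_add_left
            apply Nat.mul_le_mul
            · exact Nat.mul_le_mul_left _ h8
            · exact Nat.pow_le_pow_left hbound 3
        _ = b * u ^ 4 + D1 * L ^ 11 := by rw [hD1]; ring
    have h2 : ((b * (1 + Q * (T + N)) ^ 4 : ℕ) : ℝ) ≤
        ((b * (1 + Q * (T - 1)) ^ 4 : ℕ) : ℝ) + D1 * (L : ℝ) ^ 11 := by exact_mod_cast h1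
    have h3 : (L : ℝ) ^ 11 ≤ Y ^ 11 := pow_le_pow_left₀ (by positivity) hLY 11
    have h4 : (1 : ℝ) ≤ Y ^ 11 := one_le_pow₀ (hLr.trans hLY)
    have h5 : (D1 : ℝ) * (L : ℝ) ^ 11 ≤ D1 * Y ^ 11 := mul_le_mul_of_nonneg_left h3 (by positivity)
    have h6 : (1 + (E : ℝ)) ≤ (1 + E) * Y ^ 11 := le_mul_of_one_le_right (by positivity) h4
    calc ((b * (1 + Q * (T + N)) ^ 4 : ℕ) : ℝ) ≤ X + 1 + E + D1 * Y ^ 11 := by linarith
      _ ≤ X + (1 + E + D1) * Y ^ 11 := by linarith [h6, (by ring :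
          (1 + (E : ℝ) + D1) * Y ^ 11 = (1 + E) * Y ^ 11 + D1 * Y ^ 11)]
  have hsub : ((G.image fun t => vv b Q t K : Finset ℕ) : Set ℕ) ⊆ S := by
    intro Z hZ
    rw [Finset.mem_coe] at hZ
    obtain ⟨t, ht, rfl⟩ := Finset.mem_image.1 hZ
    obtain ⟨g1, g2, g3⟩ := hGt t ht
    have g4 : b * K < t := by omega
    have g5 := vv_lt (Q := Q) hb1 g4
    refine ⟨?_, ?_, ?_⟩
    · have h1 : b * (1 + Q * T) ^ 4 ≤ vv b Q t K + E := by
        have h2 : b * (1 + Q * T) ^ 4 ≤ b * (1 + Q * t) ^ 4 := by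
          apply Nat.mul_le_mul_left
          apply Nat.pow_le_pow_left
          have := Nat.mul_le_mul_left Q g1.le
          omega
        unfold vv
        omega
      have h2 : ((b * (1 + Q * T) ^ 4 : ℕ) : ℝ) ≤ (vv b Q t K : ℝ) + E := by exact_mod_cast h1
      linarith
    · have h1 : vv b Q t K ≤ b * (1 + Q * (T + N)) ^ 4 := by
        unfold vv
        refine (Nat.sub_le _ _).trans ?_
        apply Nat.mul_le_mul_left
        apply Nat.pow_le_pow_left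
        have := Nat.mul_le_mul_left Q g2
        omega
      calc ((vv b Q t K : ℕ) : ℝ) ≤ ((b * (1 + Q * (T + N)) ^ 4 : ℕ) : ℝ) := by exact_mod_cast h1
        _ ≤ _ := hup
    · intro h hh
      obtain ⟨w, hw, rfl⟩ := Finset.mem_image.1 hh
      have hw' := Finset.mem_Icc.1 hw
      have k3 : b * w < t := lt_of_le_of_lt (Nat.mul_le_mul_left b hw'.2) g4
      have e1 := vv_lt (Q := Q) hb1 k3
      have e3 : b ^ 3 * (Q * w) ^ 4 ≤ b ^ 3 * (Q * K) ^ 4 := by gcongr; exact hw'.2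
      have e4 : vv b Q t K + b ^ 3 * Q ^ 4 * (K ^ 4 - w ^ 4) = vv b Q t w := by
        have e6 : b ^ 3 * Q ^ 4 * (K ^ 4 - w ^ 4) = b ^ 3 * (Q * K) ^ 4 - b ^ 3 * (Q * w) ^ 4 := by
          rw [Nat.mul_sub]
          congr 1 <;> ring
        rw [e6]
        unfold vv
        omega
      rw [e4]
      refine ⟨?_, vv_mod hb1 k3 hMQ, ?_⟩
      · have h2 := g3 w hw
        rw [← vv_cast hb1 k3, Int.natAbs_natCast] at h2
        exact h2
      · refine hP _ b (1 + Q * t) (Q * w) ?_ (by omega) (by omega) ?_ (vv_form hb1 k3)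
        · unfold vv
          omega
        · exact Nat.mul_pos (by omega) (by omega)
  have hcard : G.card ≤ S.ncard := by
    calc G.card = (G.image fun t => vv b Q t K).card := by
          rw [Finset.card_image_of_injOn]
          intro t ht t' ht' he
          have j1 := (hGt t (Finset.mem_coe.1 ht)).1
          have j2 := (hGt t' (Finset.mem_coe.1 ht')).1
          exact vv_inj_t hb1 hQ1 (by omega) (by omega) he
      _ = ((G.image fun t => vv b Q t K : Finset ℕ) : Set ℕ).ncard :=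
          (Set.ncard_coe_finset _).symm
      _ ≤ S.ncard := Set.ncard_le_ncard hsub hSfin
  have h1 : (1 / 4 : ℝ) * Y ^ 2 ≤ (L : ℝ) ^ 2 := by
    have h2 : Y ^ 2 ≤ (2 * (L : ℝ)) ^ 2 := pow_le_pow_left₀ hY0 hYL 2
    nlinarith
  calc (1 / 4 : ℝ) * Y ^ 2 ≤ (L : ℝ) ^ 2 := h1
    _ ≤ G.card := hgood
    _ ≤ S.ncard := by exact_mod_cast hcard

end Pool.Agent.U334.CC
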