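import Mathlib

/-!
# Clusters of squarefree congruent numbers: the counting core

For squarefree `b`, a multiple `Q` of `b` whose prime factors are exactly the primes `≤ z`, and
`x = 1 + Q t`, the numbers `b (x ^ 4 - b ^ 2 (Q w) ^ 4)`, `1 ≤ w ≤ W`, are congruent numbers which
lie close to each other. We bound the number of pairs `(t, w)` for which the number is not
squarefree.
-/

set_option autoImplicit false

open Finset

namespace Pool.Agent.U334.CC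

/-- the value `x = 1 + Q t` -/
def xx (Q t : ℕ) : ℤ := 1 + Q * t

/-- first factor -/
def fA (b Q t w : ℕ) : ℤ := xx Q t ^ 2 - b * (Q * w) ^ 2

/-- second factor -/
def fB (b Q t w : ℕ) : ℤ := xx Q t ^ 2 + b * (Q * w) ^ 2

/-- the number -/
def nn (b Q t w : ℕ) : ℤ := b * (fA b Q t w * fB b Q t w)

/-- conditions on `b`, `Q`, `z` -/
structure Ok (b Q z : ℕ) : Prop where
  hb : Squarefree b
  hb1 : 1 ≤ b
  hQ : 2 ≤ Q
  hbQ : b ∣ Q
  hz : 2 ≤ z
  small : ∀ p : ℕ, p.Prime → p ≤ z → p ∣ Q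
  large : ∀ p : ℕ, p.Prime → p ∣ Q → p ≤ z

theorem card_le_of_modEq {S : Finset ℕ} {T m : ℕ} (hS : S ⊆ Icc 1 T)
    (h : ∀ s ∈ S, ∀ t ∈ S, s ≡ t [MOD m]) : S.card ≤ T / m + 1 := by
  have h1 : S.card = (S.image fun s => s / m).card := by
    rw [Finset.card_image_of_injOn]
    intro s hs t ht hst
    have h2 : s % m = t % m := h s hs t ht
    have h3 : s / m = t / m := hst
    rw [← Nat.div_add_mod s m, ← Nat.div_add_mod t m, h2, h3]
  rw [h1]
  have h2 : (S.image fun s => s / m) ⊆ range (T / m + 1) := by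
    intro y hy
    obtain ⟨s, hs, rfl⟩ := Finset.mem_image.1 hy
    have := (Finset.mem_Icc.1 (hS hs)).2
    rw [Finset.mem_range]
    exact Nat.lt_succ_of_le (Nat.div_le_div_right this)
  simpa using Finset.card_le_card h2

theorem dvd_sub_iff {Q m s t : ℕ} (hc : IsCoprime (m : ℤ) (Q : ℤ))
    (h : (m : ℤ) ∣ (Q : ℤ) * ((s : ℤ) - t)) : s ≡ t [MOD m] := by
  have h1 : (m : ℤ) ∣ ((s : ℤ) - t) := hc.dvd_of_dvd_mul_left h
  exact ((Nat.modEq_iff_dvd).2 (by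
    have h2 : ((t : ℤ) - s) = -((s : ℤ) - t) := by ring
    rw [h2]
    exact (dvd_neg).2 h1))

theorem cop {Q p : ℕ} (hp : p.Prime) (hpQ : ¬ p ∣ Q) (k : ℕ) :
    IsCoprime (((p ^ k : ℕ)) : ℤ) (Q : ℤ) := by
  rw [Nat.isCoprime_iff_coprime]
  exact Nat.Coprime.pow_left k ((Nat.Prime.coprime_iff_not_dvd hp).2 hpQ)

/-- the number of `t` with `p ∣ x` -/
theorem card_dvd_x {Q p T : ℕ} (hp : p.Prime) (hpQ : ¬ p ∣ Q) :
    ((Icc 1 T).filter fun t => (p : ℤ) ∣ xx Q t).card ≤ T / p + 1 := by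
  apply card_le_of_modEq (Finset.filter_subset _ _)
  intro s hs t ht
  have h1 := (Finset.mem_filter.1 hs).2
  have h2 := (Finset.mem_filter.1 ht).2
  have h3 := dvd_sub h1 h2
  have h4 : xx Q s - xx Q t = (Q : ℤ) * ((s : ℤ) - t) := by unfold xx; ring
  rw [h4] at h3
  have h5 := cop hp hpQ 1
  rw [pow_one] at h5
  exact dvd_sub_iff h5 h3

/-- the number of `t` with `p ^ 2 ∣ x ^ 2 - c` -/
theorem card_sq {Q p T : ℕ} (hp : p.Prime) (hpQ : ¬ p ∣ Q) (hp2 : p ≠ 2) (c : ℤ)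
    (hc : ¬ (p : ℤ) ∣ c) :
    ((Icc 1 T).filter fun t => ((p ^ 2 : ℕ) : ℤ) ∣ xx Q t ^ 2 - c).card ≤ 2 * (T / p ^ 2 + 1) := by
  classical
  set S := (Icc 1 T).filter fun t => ((p ^ 2 : ℕ) : ℤ) ∣ xx Q t ^ 2 - c with hS
  have hpp : Prime (p : ℤ) := Nat.prime_iff_prime_int.1 hp
  rcases S.eq_empty_or_nonempty with h0 | ⟨t0, ht0⟩
  · rw [h0]; simp
  have hx0 : ((p ^ 2 : ℕ) : ℤ) ∣ xx Q t0 ^ 2 - c := (Finset.mem_filter.1 ht0).2
  have hpx : ¬ (p : ℤ) ∣ xx Q t0 := by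
    intro h
    apply hc
    have h1 : (p : ℤ) ∣ xx Q t0 ^ 2 - c := (by push_cast; exact dvd_pow_self _ two_ne_zero :
      (p : ℤ) ∣ ((p ^ 2 : ℕ) : ℤ)).trans hx0
    have h2 : (p : ℤ) ∣ xx Q t0 ^ 2 := dvd_pow h two_ne_zero
    have h3 := dvd_sub h2 h1
    have h4 : xx Q t0 ^ 2 - (xx Q t0 ^ 2 - c) = c := by ring
    rwa [h4] at h3
  set S1 := S.filter fun t => ((p ^ 2 : ℕ) : ℤ) ∣ xx Q t - xx Q t0 with hS1
  set S2 := S.filter fun t => ((p ^ 2 : ℕ) : ℤ) ∣ xx Q t + xx Q t0 with hS2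
  have hsub : S ⊆ S1 ∪ S2 := by
    intro t ht
    have hxt : ((p ^ 2 : ℕ) : ℤ) ∣ xx Q t ^ 2 - c := (Finset.mem_filter.1 ht).2
    have h1 : ((p ^ 2 : ℕ) : ℤ) ∣ (xx Q t - xx Q t0) * (xx Q t + xx Q t0) := by
      have h2 := dvd_sub hxt hx0
      have h3 : xx Q t ^ 2 - c - (xx Q t0 ^ 2 - c) = (xx Q t - xx Q t0) * (xx Q t + xx Q t0) := by
        ring
      rwa [h3] at h2
    by_cases h2 : (p : ℤ) ∣ xx Q t - xx Q t0
    · have h3 : ¬ (p : ℤ) ∣ xx Q t + xx Q t0 := by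
        intro h4
        have h5 := dvd_sub h4 h2
        have h6 : xx Q t + xx Q t0 - (xx Q t - xx Q t0) = 2 * xx Q t0 := by ring
        rw [h6] at h5
        rcases hpp.dvd_or_dvd h5 with h7 | h7
        · have h8 : p ∣ 2 := by exact_mod_cast h7
          exact hp2 ((Nat.prime_dvd_prime_iff_eq hp Nat.prime_two).1 h8)
        · exact hpx h7
      have h4 : IsCoprime (((p ^ 2 : ℕ)) : ℤ) (xx Q t + xx Q t0) := by
        push_cast
        exact IsCoprime.pow_left ((Prime.coprime_iff_not_dvd hpp).2 h3)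
      have h5 := h4.dvd_of_dvd_mul_right h1
      exact Finset.mem_union_left _ (Finset.mem_filter.2 ⟨ht, h5⟩)
    · have h4 : IsCoprime (((p ^ 2 : ℕ)) : ℤ) (xx Q t - xx Q t0) := by
        push_cast
        exact IsCoprime.pow_left ((Prime.coprime_iff_not_dvd hpp).2 h2)
      have h5 := h4.dvd_of_dvd_mul_left h1
      exact Finset.mem_union_right _ (Finset.mem_filter.2 ⟨ht, h5⟩)
  have hc1 : S1.card ≤ T / p ^ 2 + 1 := by
    apply card_le_of_modEq
      ((Finset.filter_subset _ _).trans (Finset.filter_subset _ _))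
    intro s hs t ht
    have h1 := (Finset.mem_filter.1 hs).2
    have h2 := (Finset.mem_filter.1 ht).2
    have h3 := dvd_sub h1 h2
    have h4 : xx Q s - xx Q t0 - (xx Q t - xx Q t0) = (Q : ℤ) * ((s : ℤ) - t) := by
      unfold xx; ring
    rw [h4] at h3
    exact dvd_sub_iff (cop hp hpQ 2) h3
  have hc2 : S2.card ≤ T / p ^ 2 + 1 := by
    apply card_le_of_modEq
      ((Finset.filter_subset _ _).trans (Finset.filter_subset _ _))
    intro s hs t ht
    have h1 := (Finset.mem_filter.1 hs).2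
    have h2 := (Finset.mem_filter.1 ht).2
    have h3 := dvd_sub h1 h2
    have h4 : xx Q s + xx Q t0 - (xx Q t + xx Q t0) = (Q : ℤ) * ((s : ℤ) - t) := by
      unfold xx; ring
    rw [h4] at h3
    exact dvd_sub_iff (cop hp hpQ 2) h3
  calc S.card ≤ (S1 ∪ S2).card := Finset.card_le_card hsub
    _ ≤ S1.card + S2.card := Finset.card_union_le _ _
    _ ≤ 2 * (T / p ^ 2 + 1) := by omega

theorem card_mul (p W : ℕ) : ((Icc 1 W).filter fun w => p ∣ w).card = W / p := by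
  have h : (Icc 1 W).filter (fun w => p ∣ w) = (Ioc 0 W).filter fun w => p ∣ w := by
    ext w
    simp only [Finset.mem_filter, Finset.mem_Icc, Finset.mem_Ioc]
    constructor
    · rintro ⟨⟨h1, h2⟩, h3⟩; exact ⟨⟨by omega, h2⟩, h3⟩
    · rintro ⟨⟨h1, h2⟩, h3⟩; exact ⟨⟨by omega, h2⟩, h3⟩
  rw [h, Nat.Ioc_filter_dvd_card_eq_div]

section ok
variable {b Q z : ℕ} (ok : Ok b Q z)
include ok

omit ok in
theorem fA_mod (t w : ℕ) : (Q : ℤ) ∣ fA b Q t w - 1 := by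
  refine ⟨2 * t + Q * t ^ 2 - b * Q * w ^ 2, ?_⟩
  unfold fA xx; ring

omit ok in
theorem fB_mod (t w : ℕ) : (Q : ℤ) ∣ fB b Q t w - 1 := by
  refine ⟨2 * t + Q * t ^ 2 + b * Q * w ^ 2, ?_⟩
  unfold fB xx; ring

theorem not_dvd_fA {p : ℕ} (hp : p.Prime) (hpz : p ≤ z) (t w : ℕ) : ¬ (p : ℤ) ∣ fA b Q t w := by
  intro h
  have h1 : (p : ℤ) ∣ (Q : ℤ) := by exact_mod_cast ok.small p hp hpz
  have h2 := dvd_sub h (h1.trans (fA_mod (b := b) t w))
  have h3 : fA b Q t w - (fA b Q t w - 1) = 1 := by ring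
  rw [h3] at h2
  have h4 : p ∣ 1 := by exact_mod_cast h2
  exact hp.one_lt.ne' (Nat.dvd_one.1 h4)

theorem not_dvd_fB {p : ℕ} (hp : p.Prime) (hpz : p ≤ z) (t w : ℕ) : ¬ (p : ℤ) ∣ fB b Q t w := by
  intro h
  have h1 : (p : ℤ) ∣ (Q : ℤ) := by exact_mod_cast ok.small p hp hpz
  have h2 := dvd_sub h (h1.trans (fB_mod (b := b) t w))
  have h3 : fB b Q t w - (fB b Q t w - 1) = 1 := by ring
  rw [h3] at h2
  have h4 : p ∣ 1 := by exact_mod_cast h2
  exact hp.one_lt.ne' (Nat.dvd_one.1 h4)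

theorem fA_ne (t w : ℕ) : fA b Q t w ≠ 0 := by
  intro h
  have h1 := fA_mod (b := b) (Q := Q) t w
  rw [h] at h1
  have h2 : (Q : ℤ) ∣ 1 := by
    have := (dvd_neg).2 h1
    simpa using this
  have h3 : Q ∣ 1 := by exact_mod_cast h2
  have := Nat.dvd_one.1 h3
  have := ok.hQ
  omega

theorem fB_pos (t w : ℕ) : 0 < fB b Q t w := by
  unfold fB xx
  positivity

/-- if the number is not squarefree, there is a bad prime -/
theorem bad_prime {t w : ℕ} (h : ¬ Squarefree (nn b Q t w).natAbs) :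
    ∃ p : ℕ, p.Prime ∧ z < p ∧ ((p ∣ w ∧ (p : ℤ) ∣ xx Q t) ∨
      (¬ p ∣ w ∧ (((p ^ 2 : ℕ) : ℤ) ∣ fA b Q t w ∨ ((p ^ 2 : ℕ) : ℤ) ∣ fB b Q t w))) := by
  rw [Nat.squarefree_iff_prime_squarefree] at h
  push Not at h
  obtain ⟨p, hp, hpn⟩ := h
  have hpp : Prime (p : ℤ) := Nat.prime_iff_prime_int.1 hp
  have h1 : ((p ^ 2 : ℕ) : ℤ) ∣ nn b Q t w := by
    rw [sq]
    exact Int.natCast_dvd.2 hpn
  have hcopA : ∀ (y : ℤ) (_ : ¬ (p : ℤ) ∣ y), IsCoprime (((p ^ 2 : ℕ)) : ℤ) y := by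
    intro y hy
    push_cast
    exact IsCoprime.pow_left ((Prime.coprime_iff_not_dvd hpp).2 hy)
  by_cases hpz : p ≤ z
  · exfalso
    unfold nn at h1
    have h2 := (hcopA _ (not_dvd_fB ok hp hpz t w))
    have h3 := (hcopA _ (not_dvd_fA ok hp hpz t w))
    have h4 : ((p ^ 2 : ℕ) : ℤ) ∣ (b : ℤ) := by
      have h5 : ((p ^ 2 : ℕ) : ℤ) ∣ ((b : ℤ) * fA b Q t w) * fB b Q t w := by
        rw [mul_assoc]; exact h1
      exact h3.dvd_of_dvd_mul_right (h2.dvd_of_dvd_mul_right h5)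
    have h5 : p * p ∣ b := by
      rw [← sq]; exact_mod_cast h4
    have := ok.hb p h5
    exact hp.one_lt.ne' (Nat.isUnit_iff.1 this)
  · push Not at hpz
    refine ⟨p, hp, hpz, ?_⟩
    have hpQ : ¬ p ∣ Q := fun h => absurd (ok.large p hp h) (by omega)
    have hpb : ¬ p ∣ b := fun h => hpQ (h.trans ok.hbQ)
    have hp2 : p ≠ 2 := by have := ok.hz; omega
    have h2 : ((p ^ 2 : ℕ) : ℤ) ∣ fA b Q t w * fB b Q t w := by
      have h3 : ¬ (p : ℤ) ∣ (b : ℤ) := fun h => hpb (by exact_mod_cast h)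
      exact (hcopA _ h3).dvd_of_dvd_mul_left h1
    -- if `p ∣ w` and `p` divides one of the factors, then `p ∣ x`
    have hx : p ∣ w → ((p : ℤ) ∣ fA b Q t w ∨ (p : ℤ) ∣ fB b Q t w) → (p : ℤ) ∣ xx Q t := by
      intro hw h3
      obtain ⟨v, rfl⟩ := hw
      have h4 : (p : ℤ) ∣ xx Q t ^ 2 := by
        rcases h3 with h3 | h3
        · have h5 : xx Q t ^ 2 = fA b Q t (p * v) + p * (b * Q ^ 2 * p * v ^ 2) := by
            unfold fA; push_cast; ring
          rw [h5]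
          exact dvd_add h3 (Dvd.intro _ rfl)
        · have h5 : xx Q t ^ 2 = fB b Q t (p * v) - p * (b * Q ^ 2 * p * v ^ 2) := by
            unfold fB; push_cast; ring
          rw [h5]
          exact dvd_sub h3 (Dvd.intro _ rfl)
      exact hpp.dvd_of_dvd_pow h4
    have hpAB : (p : ℤ) ∣ fA b Q t w ∨ (p : ℤ) ∣ fB b Q t w := by
      have h3 : (p : ℤ) ∣ fA b Q t w * fB b Q t w :=
        (by push_cast; exact dvd_pow_self _ two_ne_zero : (p : ℤ) ∣ ((p ^ 2 : ℕ) : ℤ)).trans h2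
      exact hpp.dvd_or_dvd h3
    by_cases hw : p ∣ w
    · exact Or.inl ⟨hw, hx hw hpAB⟩
    · refine Or.inr ⟨hw, ?_⟩
      by_cases hA : (p : ℤ) ∣ fA b Q t w
      · have hB : ¬ (p : ℤ) ∣ fB b Q t w := by
          intro hB
          have h3 := dvd_sub hB hA
          have h4 : fB b Q t w - fA b Q t w = 2 * (b * (Q * w) ^ 2) := by
            unfold fA fB; ring
          rw [h4] at h3
          rcases hpp.dvd_or_dvd h3 with h5 | h5
          · have h6 : p ∣ 2 := by exact_mod_cast h5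
            exact hp2 ((Nat.prime_dvd_prime_iff_eq hp Nat.prime_two).1 h6)
          · rcases hpp.dvd_or_dvd h5 with h6 | h6
            · exact hpb (by exact_mod_cast h6)
            · have h7 := hpp.dvd_of_dvd_pow h6
              rcases hpp.dvd_or_dvd h7 with h8 | h8
              · exact hpQ (by exact_mod_cast h8)
              · exact hw (by exact_mod_cast h8)
        exact Or.inl ((hcopA _ hB).dvd_of_dvd_mul_right h2)
      · exact Or.inr ((hcopA _ hA).dvd_of_dvd_mul_left h2)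

/-- the bound for the bad primes -/
theorem bad_le {t w T p : ℕ} (ht : t ≤ T) (hw : w ≤ T)
    (h : ((p ^ 2 : ℕ) : ℤ) ∣ fA b Q t w ∨ ((p ^ 2 : ℕ) : ℤ) ∣ fB b Q t w) :
    p ≤ 2 * b * (1 + Q * T) := by
  have hb1 : (1 : ℤ) ≤ b := by exact_mod_cast ok.hb1
  have ht' : (t : ℤ) ≤ T := by exact_mod_cast ht
  have hw' : (w : ℤ) ≤ T := by exact_mod_cast hw
  have hQ0 : (0 : ℤ) ≤ Q := by positivity
  have hQt : (Q : ℤ) * t ≤ Q * T := mul_le_mul_of_nonneg_left ht' hQ0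
  have hQw : (Q : ℤ) * w ≤ Q * T := mul_le_mul_of_nonneg_left hw' hQ0
  have hQt0 : (0 : ℤ) ≤ (Q : ℤ) * t := by positivity
  have hQw0 : (0 : ℤ) ≤ (Q : ℤ) * w := by positivity
  have hx : xx Q t ^ 2 ≤ (1 + Q * T) ^ 2 := by
    unfold xx
    exact pow_le_pow_left₀ (by positivity) (by linarith) 2
  have hq : (b : ℤ) * (Q * w) ^ 2 ≤ b * (1 + Q * T) ^ 2 := by
    apply mul_le_mul_of_nonneg_left _ (by positivity)
    exact pow_le_pow_left₀ (by positivity) (by linarith) 2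
  have hsq : (0 : ℤ) ≤ (1 + (Q : ℤ) * T) ^ 2 := by positivity
  have hB : fB b Q t w ≤ (2 * b * (1 + Q * T)) ^ 2 := by
    unfold fB
    have h1 : (2 * (b : ℤ) * (1 + Q * T)) ^ 2 = 4 * b ^ 2 * (1 + Q * T) ^ 2 := by ring
    rw [h1]
    nlinarith [mul_le_mul_of_nonneg_right (show (1 : ℤ) + b ≤ 4 * b ^ 2 by nlinarith) hsq]
  have hA : |fA b Q t w| ≤ fB b Q t w := by
    unfold fA fB
    rw [abs_le]
    constructor <;> nlinarith [sq_nonneg (xx Q t), (by positivity : (0 : ℤ) ≤ b * (Q * w) ^ 2)]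
  have h2 : ((p : ℤ)) ^ 2 ≤ (2 * b * (1 + Q * T)) ^ 2 := by
    rcases h with h | h
    · have h3 : ((p ^ 2 : ℕ) : ℤ) ≤ |fA b Q t w| :=
        Int.le_of_dvd (abs_pos.2 (fA_ne ok t w)) ((dvd_abs _ _).2 h)
      push_cast at h3
      linarith
    · have h3 : ((p ^ 2 : ℕ) : ℤ) ≤ fB b Q t w := Int.le_of_dvd (fB_pos ok t w) h
      push_cast at h3
      linarith
  have h3 : (p : ℤ) ≤ 2 * b * (1 + Q * T) := by
    exact (pow_le_pow_iff_left₀ (by positivity) (by positivity) two_ne_zero).1 h2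
  exact_mod_cast h3

end ok

end Pool.Agent.U334.CC
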