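import Pool.Agent.U334.CC.Core

/-!
# Clusters of squarefree congruent numbers: the number of bad pairs
-/

set_option autoImplicit false

open Finset

namespace Pool.Agent.U334.CC

/-- the bad pairs -/
noncomputable def Bad (b Q T W : ℕ) : Finset (ℕ × ℕ) := by
  classical
  exact ((Icc 1 T) ×ˢ (Icc 1 W)).filter fun q => ¬ Squarefree (nn b Q q.1 q.2).natAbs

/-- the primes concerned -/
def PP (z N : ℕ) : Finset ℕ := (Ioc z N).filter Nat.Prime

/-- pairs with `p ∣ w` and `p ∣ x` -/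
def E1 (Q T W p : ℕ) : Finset (ℕ × ℕ) :=
  ((Icc 1 T).filter fun t => (p : ℤ) ∣ xx Q t) ×ˢ ((Icc 1 W).filter fun w => p ∣ w)

/-- pairs with `p ^ 2 ∣ x ^ 2 - e b (Q w) ^ 2` -/
def E2 (b Q T W p : ℕ) (e : ℤ) : Finset (ℕ × ℕ) :=
  ((Icc 1 W).filter fun w => ¬ p ∣ w).biUnion fun w =>
    ((Icc 1 T).filter fun t => ((p ^ 2 : ℕ) : ℤ) ∣ xx Q t ^ 2 - e * (b * (Q * w) ^ 2)).image
      fun t => (t, w)

theorem card_PP (z N : ℕ) : (PP z N).card ≤ Nat.primeCounting N := by
  rw [Nat.primeCounting, Nat.primeCounting', Nat.count_eq_card_filter_range]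
  apply Finset.card_le_card
  intro p hp
  obtain ⟨h1, h2⟩ := Finset.mem_filter.1 hp
  rw [Finset.mem_Ioc] at h1
  exact Finset.mem_filter.2 ⟨Finset.mem_range.2 (by omega), h2⟩

theorem sum_PP {z N : ℕ} (hz : 1 ≤ z) : ∑ p ∈ PP z N, ((p : ℝ) ^ 2)⁻¹ ≤ (z : ℝ)⁻¹ := by
  rcases le_or_gt z N with h | h
  · calc ∑ p ∈ PP z N, ((p : ℝ) ^ 2)⁻¹ ≤ ∑ p ∈ Ioc z N, ((p : ℝ) ^ 2)⁻¹ := by
          apply Finset.sum_le_sum_of_subset_of_nonneg (Finset.filter_subset _ _)
          intro i _ _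
          positivity
      _ ≤ (z : ℝ)⁻¹ - (N : ℝ)⁻¹ := sum_Ioc_inv_sq_le_sub (by omega) h
      _ ≤ (z : ℝ)⁻¹ := by
          have : (0 : ℝ) ≤ (N : ℝ)⁻¹ := by positivity
          linarith
  · have : PP z N = ∅ := by
      unfold PP
      rw [Finset.Ioc_eq_empty_of_le h.le]
      simp
    rw [this]
    simp

section ok
variable {b Q z : ℕ} (ok : Ok b Q z)
include ok

theorem card_E1 {T W p : ℕ} (hp : p.Prime) (hpz : z < p) (hWT : W ≤ T) :
    ((E1 Q T W p).card : ℝ) ≤ 2 * W * T * ((p : ℝ) ^ 2)⁻¹ := by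
  have hpQ : ¬ p ∣ Q := fun h => absurd (ok.large p hp h) (by omega)
  have hp0 : (0 : ℝ) < p := by exact_mod_cast hp.pos
  have h1 : (E1 Q T W p).card ≤ (T / p + 1) * (W / p) := by
    unfold E1
    rw [Finset.card_product, card_mul]
    exact Nat.mul_le_mul_right _ (card_dvd_x hp hpQ)
  rcases lt_or_ge W p with h | h
  · rw [Nat.div_eq_of_lt h, Nat.mul_zero] at h1
    have h2 : ((E1 Q T W p).card : ℝ) = 0 := by
      exact_mod_cast Nat.le_zero.1 h1
    rw [h2]
    positivity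
  · have h2 : ((E1 Q T W p).card : ℝ) ≤ (((T / p : ℕ) : ℝ) + 1) * ((W / p : ℕ) : ℝ) := by
      exact_mod_cast h1
    have h3 : ((T / p : ℕ) : ℝ) ≤ (T : ℝ) / p := Nat.cast_div_le
    have h4 : ((W / p : ℕ) : ℝ) ≤ (W : ℝ) / p := Nat.cast_div_le
    have h5 : (1 : ℝ) ≤ (T : ℝ) / p := by
      rw [le_div_iff₀ hp0, one_mul]
      exact_mod_cast h.trans hWT
    calc ((E1 Q T W p).card : ℝ) ≤ (((T / p : ℕ) : ℝ) + 1) * ((W / p : ℕ) : ℝ) := h2
      _ ≤ ((T : ℝ) / p + (T : ℝ) / p) * ((W : ℝ) / p) := by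
          apply mul_le_mul (by linarith) h4 (by positivity) (by positivity)
      _ = 2 * W * T * ((p : ℝ) ^ 2)⁻¹ := by
          field_simp
          ring

theorem card_E2 {T W p : ℕ} (hp : p.Prime) (hpz : z < p) (e : ℤ) (he : e = 1 ∨ e = -1) :
    ((E2 b Q T W p e).card : ℝ) ≤ 2 * W * T * ((p : ℝ) ^ 2)⁻¹ + 2 * W := by
  have hpQ : ¬ p ∣ Q := fun h => absurd (ok.large p hp h) (by omega)
  have hpb : ¬ p ∣ b := fun h => hpQ (h.trans ok.hbQ)
  have hp2 : p ≠ 2 := by have := ok.hz; omega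
  have hpp : Prime (p : ℤ) := Nat.prime_iff_prime_int.1 hp
  have hp0 : (0 : ℝ) < p := by exact_mod_cast hp.pos
  have h1 : (E2 b Q T W p e).card ≤ W * (2 * (T / p ^ 2 + 1)) := by
    unfold E2
    calc _ ≤ ∑ w ∈ (Icc 1 W).filter (fun w => ¬ p ∣ w), (((Icc 1 T).filter fun t =>
            ((p ^ 2 : ℕ) : ℤ) ∣ xx Q t ^ 2 - e * (b * (Q * w) ^ 2)).image
            fun t => (t, w)).card := Finset.card_biUnion_le
      _ ≤ ∑ w ∈ (Icc 1 W).filter (fun w => ¬ p ∣ w), (2 * (T / p ^ 2 + 1)) := by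
          apply Finset.sum_le_sum
          intro w hw
          have hpw : ¬ p ∣ w := (Finset.mem_filter.1 hw).2
          refine Finset.card_image_le.trans (card_sq hp hpQ hp2 _ ?_)
          intro h
          have h3 : (p : ℤ) ∣ (b * (Q * w) ^ 2) := by
            rcases he with rfl | rfl
            · simpa using h
            · have := (dvd_neg).2 h
              simpa using this
          rcases hpp.dvd_or_dvd h3 with h6 | h6
          · exact hpb (by exact_mod_cast h6)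
          · have h7 := hpp.dvd_of_dvd_pow h6
            rcases hpp.dvd_or_dvd h7 with h8 | h8
            · exact hpQ (by exact_mod_cast h8)
            · exact hpw (by exact_mod_cast h8)
      _ = ((Icc 1 W).filter (fun w => ¬ p ∣ w)).card * (2 * (T / p ^ 2 + 1)) := by
          rw [Finset.sum_const, smul_eq_mul]
      _ ≤ W * (2 * (T / p ^ 2 + 1)) := by
          apply Nat.mul_le_mul_right
          calc _ ≤ (Icc 1 W).card := Finset.card_filter_le _ _
            _ = W := by simp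
  have h2 : ((E2 b Q T W p e).card : ℝ) ≤ W * (2 * (((T / p ^ 2 : ℕ) : ℝ) + 1)) := by
    exact_mod_cast h1
  have h3 : ((T / p ^ 2 : ℕ) : ℝ) ≤ (T : ℝ) * ((p : ℝ) ^ 2)⁻¹ := by
    have := @Nat.cast_div_le ℝ _ _ _ T (p ^ 2)
    rw [← div_eq_mul_inv]
    exact_mod_cast this
  calc ((E2 b Q T W p e).card : ℝ) ≤ W * (2 * (((T / p ^ 2 : ℕ) : ℝ) + 1)) := h2
    _ ≤ W * (2 * ((T : ℝ) * ((p : ℝ) ^ 2)⁻¹ + 1)) := by gcongr
    _ = 2 * W * T * ((p : ℝ) ^ 2)⁻¹ + 2 * W := by ring

theorem bad_subset {T W : ℕ} (hWT : W ≤ T) :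
    Bad b Q T W ⊆ (PP z (2 * b * (1 + Q * T))).biUnion fun p =>
      E1 Q T W p ∪ (E2 b Q T W p 1 ∪ E2 b Q T W p (-1)) := by
  classical
  intro q hq
  obtain ⟨t, w⟩ := q
  unfold Bad at hq
  obtain ⟨h1, h2⟩ := Finset.mem_filter.1 hq
  obtain ⟨ht, hw⟩ := Finset.mem_product.1 h1
  rw [Finset.mem_Icc] at ht hw
  simp only at ht hw h2
  obtain ⟨p, hp, hpz, h3⟩ := bad_prime ok h2
  rw [Finset.mem_biUnion]
  refine ⟨p, ?_, ?_⟩
  · refine Finset.mem_filter.2 ⟨Finset.mem_Ioc.2 ⟨hpz, ?_⟩, hp⟩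
    rcases h3 with ⟨h4, -⟩ | ⟨-, h4⟩
    · have h5 : p ≤ w := Nat.le_of_dvd (by omega) h4
      have h6 : p ≤ T := by omega
      have hb1 := ok.hb1
      have hQ := ok.hQ
      calc p ≤ T := h6
        _ ≤ Q * T := Nat.le_mul_of_pos_left _ (by omega)
        _ ≤ 1 + Q * T := by omega
        _ ≤ 2 * b * (1 + Q * T) := Nat.le_mul_of_pos_left _ (by omega)
    · exact bad_le ok ht.2 (hw.2.trans hWT) h4
  · rcases h3 with ⟨h4, h5⟩ | ⟨h4, h5⟩
    · refine Finset.mem_union_left _ (Finset.mem_product.2 ⟨?_, ?_⟩)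
      · exact Finset.mem_filter.2 ⟨Finset.mem_Icc.2 ht, h5⟩
      · exact Finset.mem_filter.2 ⟨Finset.mem_Icc.2 hw, h4⟩
    · refine Finset.mem_union_right _ ?_
      rcases h5 with h5 | h5
      · refine Finset.mem_union_left _ (Finset.mem_biUnion.2 ⟨w, ?_, ?_⟩)
        · exact Finset.mem_filter.2 ⟨Finset.mem_Icc.2 hw, h4⟩
        · refine Finset.mem_image.2 ⟨t, Finset.mem_filter.2 ⟨Finset.mem_Icc.2 ht, ?_⟩, rfl⟩
          have h6 : xx Q t ^ 2 - 1 * (b * (Q * w) ^ 2) = fA b Q t w := by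
            unfold fA; ring
          rw [h6]; exact h5
      · refine Finset.mem_union_right _ (Finset.mem_biUnion.2 ⟨w, ?_, ?_⟩)
        · exact Finset.mem_filter.2 ⟨Finset.mem_Icc.2 hw, h4⟩
        · refine Finset.mem_image.2 ⟨t, Finset.mem_filter.2 ⟨Finset.mem_Icc.2 ht, ?_⟩, rfl⟩
          have h6 : xx Q t ^ 2 - (-1) * (b * (Q * w) ^ 2) = fB b Q t w := by
            unfold fB; ring
          rw [h6]; exact h5

/-- **the number of bad pairs** -/
theorem card_bad {T W : ℕ} (hWT : W ≤ T) :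
    ((Bad b Q T W).card : ℝ) ≤ 6 * W * T / z +
      4 * W * (Nat.primeCounting (2 * b * (1 + Q * T)) : ℝ) := by
  classical
  set N := 2 * b * (1 + Q * T) with hN
  have h1 : ((Bad b Q T W).card : ℝ) ≤ ∑ p ∈ PP z N, (6 * W * T * ((p : ℝ) ^ 2)⁻¹ + 4 * W) := by
    calc ((Bad b Q T W).card : ℝ) ≤ (((PP z N).biUnion fun p =>
          E1 Q T W p ∪ (E2 b Q T W p 1 ∪ E2 b Q T W p (-1))).card : ℝ) := by
          exact_mod_cast Finset.card_le_card (bad_subset ok hWT)
      _ ≤ ∑ p ∈ PP z N, ((E1 Q T W p ∪ (E2 b Q T W p 1 ∪ E2 b Q T W p (-1))).card : ℝ) := by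
          exact_mod_cast Finset.card_biUnion_le
      _ ≤ ∑ p ∈ PP z N, (6 * W * T * ((p : ℝ) ^ 2)⁻¹ + 4 * W) := by
          apply Finset.sum_le_sum
          intro p hp
          obtain ⟨h2, hpp⟩ := Finset.mem_filter.1 hp
          have hpz := (Finset.mem_Ioc.1 h2).1
          have h3 : ((E1 Q T W p ∪ (E2 b Q T W p 1 ∪ E2 b Q T W p (-1))).card : ℝ) ≤
              (E1 Q T W p).card + ((E2 b Q T W p 1).card + (E2 b Q T W p (-1)).card) := by
            have h4 := Finset.card_union_le (E1 Q T W p) (E2 b Q T W p 1 ∪ E2 b Q T W p (-1))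
            have h5 := Finset.card_union_le (E2 b Q T W p 1) (E2 b Q T W p (-1))
            exact_mod_cast h4.trans (Nat.add_le_add_left h5 _)
          have h4 := card_E1 ok hpp hpz hWT
          have h5 := card_E2 ok (T := T) (W := W) hpp hpz 1 (Or.inl rfl)
          have h6 := card_E2 ok (T := T) (W := W) hpp hpz (-1) (Or.inr rfl)
          linarith
  have hz : 1 ≤ z := by have := ok.hz; omega
  calc ((Bad b Q T W).card : ℝ) ≤ ∑ p ∈ PP z N, (6 * W * T * ((p : ℝ) ^ 2)⁻¹ + 4 * W) := h1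
    _ = 6 * W * T * ∑ p ∈ PP z N, ((p : ℝ) ^ 2)⁻¹ + (PP z N).card * (4 * W) := by
        rw [Finset.sum_add_distrib, ← Finset.mul_sum, Finset.sum_const, nsmul_eq_mul]
    _ ≤ 6 * W * T * (z : ℝ)⁻¹ + (Nat.primeCounting N : ℝ) * (4 * W) := by
        have h2 := sum_PP (N := N) hz
        have h3 : ((PP z N).card : ℝ) ≤ Nat.primeCounting N := by exact_mod_cast card_PP z N
        gcongr
    _ = _ := by rw [div_eq_mul_inv]; ring

end ok

/-- the number of good `w` -/
noncomputable def gd (b Q W t : ℕ) : ℕ := by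
  classical
  exact ((Icc 1 W).filter fun w => Squarefree (nn b Q t w).natAbs).card

/-- the `t` for which at least half of the `w` are good -/
noncomputable def Half (b Q T W : ℕ) : Finset ℕ := by
  classical
  exact (Icc 1 T).filter fun t => W ≤ 2 * gd b Q W t

/-- the `t` for which all `w` are good -/
noncomputable def All (b Q T W : ℕ) : Finset ℕ := by
  classical
  exact (Icc 1 T).filter fun t => ∀ w ∈ Icc 1 W, Squarefree (nn b Q t w).natAbs

theorem card_Bad_eq (b Q T W : ℕ) : (Bad b Q T W).card = ∑ t ∈ Icc 1 T, (W - gd b Q W t) := by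
  classical
  have h1 : (Bad b Q T W).card = ∑ t ∈ Icc 1 T,
      ((Icc 1 W).filter fun w => ¬ Squarefree (nn b Q t w).natAbs).card := by
    unfold Bad
    rw [Finset.card_filter, Finset.sum_product]
    apply Finset.sum_congr rfl
    intro t _
    rw [Finset.card_filter]
  rw [h1]
  apply Finset.sum_congr rfl
  intro t _
  have h2 := Finset.card_filter_add_card_filter_not (s := Icc 1 W)
    (fun w => Squarefree (nn b Q t w).natAbs)
  have h3 : (Icc 1 W).card = W := by simp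
  unfold gd
  omega

section ok
variable {b Q z : ℕ} (ok : Ok b Q z)
include ok

theorem card_half {T W : ℕ} (hW : 1 ≤ W) (hWT : W ≤ T) :
    (T : ℝ) - (12 * T / z + 8 * (Nat.primeCounting (2 * b * (1 + Q * T)) : ℝ)) ≤
      (Half b Q T W).card := by
  classical
  have h1 := card_bad ok hWT
  have h2 : ((Icc 1 T) \ (Half b Q T W)).card * W ≤ 2 * (Bad b Q T W).card := by
    rw [card_Bad_eq]
    calc ((Icc 1 T) \ (Half b Q T W)).card * W = ∑ t ∈ (Icc 1 T) \ (Half b Q T W), W := by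
          rw [Finset.sum_const, smul_eq_mul]
      _ ≤ ∑ t ∈ (Icc 1 T) \ (Half b Q T W), 2 * (W - gd b Q W t) := by
          apply Finset.sum_le_sum
          intro t ht
          obtain ⟨h3, h4⟩ := Finset.mem_sdiff.1 ht
          have h5 : ¬ W ≤ 2 * gd b Q W t := fun h5 =>
            h4 (by unfold Half; exact Finset.mem_filter.2 ⟨h3, h5⟩)
          omega
      _ ≤ ∑ t ∈ Icc 1 T, 2 * (W - gd b Q W t) :=
          Finset.sum_le_sum_of_subset Finset.sdiff_subset
      _ = 2 * ∑ t ∈ Icc 1 T, (W - gd b Q W t) := by rw [Finset.mul_sum]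
  have h3 : (T : ℝ) - (Half b Q T W).card ≤ (((Icc 1 T) \ (Half b Q T W)).card : ℝ) := by
    have h4 : T ≤ ((Icc 1 T) \ (Half b Q T W)).card + (Half b Q T W).card := by
      have := Finset.card_le_card_sdiff_add_card (s := Icc 1 T) (t := Half b Q T W)
      simpa using this
    have h5 : (T : ℝ) ≤ (((Icc 1 T) \ (Half b Q T W)).card : ℝ) + (Half b Q T W).card := by
      exact_mod_cast h4
    linarith
  have h4 : (((Icc 1 T) \ (Half b Q T W)).card : ℝ) * W ≤ 2 * ((Bad b Q T W).card : ℝ) := by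
    exact_mod_cast h2
  have hW0 : (0 : ℝ) < W := by exact_mod_cast hW
  have h5 : (((Icc 1 T) \ (Half b Q T W)).card : ℝ) * W ≤
      (12 * T / z + 8 * (Nat.primeCounting (2 * b * (1 + Q * T)) : ℝ)) * W := by
    refine h4.trans ?_
    have h6 : (12 * T / z + 8 * (Nat.primeCounting (2 * b * (1 + Q * T)) : ℝ)) * W =
        2 * (6 * W * T / z + 4 * W * (Nat.primeCounting (2 * b * (1 + Q * T)) : ℝ)) := by ring
    rw [h6]
    linarith
  have h6 := le_of_mul_le_mul_right h5 hW0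
  linarith

theorem card_all {T W : ℕ} (hWT : W ≤ T) :
    (T : ℝ) - (6 * W * T / z + 4 * W * (Nat.primeCounting (2 * b * (1 + Q * T)) : ℝ)) ≤
      (All b Q T W).card := by
  classical
  have h1 := card_bad ok hWT
  have h2 : ((Icc 1 T) \ (All b Q T W)).card ≤ (Bad b Q T W).card := by
    have h3 : ((Icc 1 T) \ (All b Q T W)) ⊆ (Bad b Q T W).image Prod.fst := by
      intro t ht
      obtain ⟨h3, h4⟩ := Finset.mem_sdiff.1 ht
      have h5 : ¬ ∀ w ∈ Icc 1 W, Squarefree (nn b Q t w).natAbs := fun h5 =>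
        h4 (by unfold All; simp only [Finset.mem_filter]; exact ⟨h3, h5⟩)
      push Not at h5
      obtain ⟨w, hw, h6⟩ := h5
      refine Finset.mem_image.2 ⟨(t, w), ?_, rfl⟩
      unfold Bad
      exact Finset.mem_filter.2 ⟨Finset.mem_product.2 ⟨h3, hw⟩, h6⟩
    exact (Finset.card_le_card h3).trans Finset.card_image_le
  have h4 : T ≤ ((Icc 1 T) \ (All b Q T W)).card + (All b Q T W).card := by
    have := Finset.card_le_card_sdiff_add_card (s := Icc 1 T) (t := All b Q T W)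
    simpa using this
  have h5 : (T : ℝ) ≤ (((Icc 1 T) \ (All b Q T W)).card : ℝ) + (All b Q T W).card := by
    exact_mod_cast h4
  have h6 : (((Icc 1 T) \ (All b Q T W)).card : ℝ) ≤ (Bad b Q T W).card := by exact_mod_cast h2
  linarith

end ok

open Filter in
/-- the primes are a thin set -/
theorem pi_small (b Q : ℕ) (hb : 1 ≤ b) (hQ : 1 ≤ Q) {ε : ℝ} (hε : 0 < ε) :
    ∀ᶠ T : ℕ in atTop, (Nat.primeCounting (2 * b * (1 + Q * T)) : ℝ) ≤ ε * T := by
  have h1 := Chebyshev.eventually_primeCounting_le (ε := 1) one_pos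
  have htend : Tendsto (fun T : ℕ => ((2 * b * (1 + Q * T) : ℕ) : ℝ)) atTop atTop := by
    apply tendsto_natCast_atTop_atTop.comp
    apply tendsto_atTop_mono (fun T => ?_) tendsto_id
    show T ≤ 2 * b * (1 + Q * T)
    calc T ≤ Q * T := Nat.le_mul_of_pos_left _ (by omega)
      _ ≤ 1 + Q * T := by omega
      _ ≤ 2 * b * (1 + Q * T) := Nat.le_mul_of_pos_left _ (by omega)
  have h2 := htend.eventually h1
  have h3 := (Real.tendsto_log_atTop.comp htend).eventually
    (eventually_ge_atTop ((Real.log 4 + 1) * (2 * b * (1 + Q)) / ε))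
  filter_upwards [h2, h3, eventually_ge_atTop 1] with T g1 g2 g3
  have hT : (1 : ℝ) ≤ T := by exact_mod_cast g3
  have hb' : (1 : ℝ) ≤ b := by exact_mod_cast hb
  have hQ' : (1 : ℝ) ≤ Q := by exact_mod_cast hQ
  rw [Nat.floor_natCast] at g1
  simp only [Function.comp] at g2
  set x : ℝ := ((2 * b * (1 + Q * T) : ℕ) : ℝ) with hx
  have hx1 : x = 2 * b * (1 + Q * T) := by rw [hx]; push_cast; ring
  have hl4 : 0 < Real.log 4 + 1 := by
    have := Real.log_pos (show (1 : ℝ) < 4 by norm_num)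
    linarith
  have hL : 0 < Real.log x := lt_of_lt_of_le (by positivity) g2
  have hxT : x ≤ 2 * b * (1 + Q) * T := by
    rw [hx1]
    have : 1 + (Q : ℝ) * T ≤ (1 + Q) * T := by nlinarith
    calc 2 * (b : ℝ) * (1 + Q * T) ≤ 2 * b * ((1 + Q) * T) := by gcongr
      _ = _ := by ring
  refine g1.trans ?_
  rw [div_le_iff₀ hL]
  have g3' : (Real.log 4 + 1) * (2 * b * (1 + Q)) ≤ ε * Real.log x := by
    rw [div_le_iff₀ hε] at g2
    linarith
  calc (Real.log 4 + 1) * x ≤ (Real.log 4 + 1) * (2 * b * (1 + Q) * T) := by gcongr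
    _ = ((Real.log 4 + 1) * (2 * b * (1 + Q))) * T := by ring
    _ ≤ (ε * Real.log x) * T := by gcongr
    _ = ε * T * Real.log x := by ring

end Pool.Agent.U334.CC
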