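import Pool.Agent.U334.CC.Main

/-!
# Clusters of squarefree congruent numbers in residue classes
-/

set_option autoImplicit false

open Finset

namespace Pool.Agent.U334.CC

/-- uniform clusters in the class of `k` modulo `8` and modulo `M` -/
theorem uniform_class {k M a r : ℕ} (hk : Squarefree k) (hkr : k % 8 = r) (hka : k ≡ a [MOD M])
    (hM : 1 ≤ M) (P : ℕ → Prop)
    (hP : ∀ n b x y : ℕ, 0 < n → 0 < b → 0 < x → 0 < y →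
      (n : ℤ) = b * ((x : ℤ) ^ 4 - b ^ 2 * (y : ℤ) ^ 4) → P n) :
    ∃ C : ℕ, ∃ c : ℝ, 0 < c ∧ ∃ X₀ : ℝ, ∀ X : ℝ, X₀ ≤ X → ∀ K : ℕ, 1 ≤ K →
      (K : ℝ) ≤ c * X ^ (1 / 4 : ℝ) →
      c * X ^ (1 / 4 : ℝ) ≤ ({Z : ℕ | (Z : ℝ) ≤ X ∧
        K ≤ {n : ℕ | Z ≤ n ∧ n ≤ Z + C * K ^ 4 ∧ Squarefree n ∧ n % 8 = r ∧ n ≡ a [MOD M] ∧
          P n}.ncard}.ncard : ℝ) := by
  obtain ⟨C, c, hc, X₀, h⟩ := uniform hk (show 1 ≤ 8 * M by omega) P hP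
  refine ⟨C, c, hc, X₀, fun X hX K hK hKX => (h X hX K hK hKX).trans ?_⟩
  have hfin : {Z : ℕ | (Z : ℝ) ≤ X ∧
        K ≤ {n : ℕ | Z ≤ n ∧ n ≤ Z + C * K ^ 4 ∧ Squarefree n ∧ n % 8 = r ∧ n ≡ a [MOD M] ∧
          P n}.ncard}.Finite := by
    apply (Set.finite_Iic ⌊X⌋₊).subset
    intro Z hZ
    exact Nat.le_floor hZ.1
  have hsub : {Z : ℕ | (Z : ℝ) ≤ X ∧
        K ≤ {n : ℕ | Z ≤ n ∧ n ≤ Z + C * K ^ 4 ∧ Squarefree n ∧ n ≡ k [MOD 8 * M] ∧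
          P n}.ncard} ⊆ {Z : ℕ | (Z : ℝ) ≤ X ∧
        K ≤ {n : ℕ | Z ≤ n ∧ n ≤ Z + C * K ^ 4 ∧ Squarefree n ∧ n % 8 = r ∧ n ≡ a [MOD M] ∧
          P n}.ncard} := by
    rintro Z ⟨h1, h2⟩
    refine ⟨h1, h2.trans (Set.ncard_le_ncard ?_ ?_)⟩
    · rintro n ⟨g1, g2, g3, g4, g5⟩
      have g6 : n % 8 = k % 8 := g4.of_dvd (Dvd.intro _ rfl)
      exact ⟨g1, g2, g3, by omega, (g4.of_dvd (Dvd.intro_left 8 rfl)).trans hka, g5⟩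
    · apply (Set.finite_Iic (Z + C * K ^ 4)).subset
      intro n hn
      exact hn.2.1
  exact_mod_cast Set.ncard_le_ncard hsub hfin

/-- fixed patterns in the class of `k` modulo `8` and modulo `M` -/
theorem pattern_class {k M a r : ℕ} (hk : Squarefree k) (hkr : k % 8 = r) (hka : k ≡ a [MOD M])
    (hM : 1 ≤ M) (P : ℕ → Prop)
    (hP : ∀ n b x y : ℕ, 0 < n → 0 < b → 0 < x → 0 < y →
      (n : ℤ) = b * ((x : ℤ) ^ 4 - b ^ 2 * (y : ℤ) ^ 4) → P n) (K : ℕ) (hK : 1 ≤ K) :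
    ∃ H : Finset ℕ, H.card = K ∧ ∃ c : ℝ, 0 < c ∧ ∃ X₀ : ℝ, ∀ X : ℝ, X₀ ≤ X →
      c * X ^ (1 / 4 : ℝ) ≤ ({n : ℕ | (n : ℝ) ≤ X ∧
        ∀ h ∈ H, Squarefree (n + h) ∧ (n + h) % 8 = r ∧ n + h ≡ a [MOD M] ∧ P (n + h)}.ncard
          : ℝ) := by
  obtain ⟨H, hH, c, hc, X₀, h⟩ := pattern hk (show 1 ≤ 8 * M by omega) P hP K hK
  refine ⟨H, hH, c, hc, X₀, fun X hX => (h X hX).trans ?_⟩
  have hfin : {n : ℕ | (n : ℝ) ≤ X ∧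
        ∀ h ∈ H, Squarefree (n + h) ∧ (n + h) % 8 = r ∧ n + h ≡ a [MOD M] ∧
          P (n + h)}.Finite := by
    apply (Set.finite_Iic ⌊X⌋₊).subset
    intro Z hZ
    exact Nat.le_floor hZ.1
  have hsub : {n : ℕ | (n : ℝ) ≤ X ∧
        ∀ h ∈ H, Squarefree (n + h) ∧ n + h ≡ k [MOD 8 * M] ∧ P (n + h)} ⊆
      {n : ℕ | (n : ℝ) ≤ X ∧
        ∀ h ∈ H, Squarefree (n + h) ∧ (n + h) % 8 = r ∧ n + h ≡ a [MOD M] ∧ P (n + h)} := by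
    rintro n ⟨h1, h2⟩
    refine ⟨h1, fun h hh => ?_⟩
    obtain ⟨g3, g4, g5⟩ := h2 h hh
    have g6 : (n + h) % 8 = k % 8 := g4.of_dvd (Dvd.intro _ rfl)
    exact ⟨g3, by omega, (g4.of_dvd (Dvd.intro_left 8 rfl)).trans hka, g5⟩
  exact_mod_cast Set.ncard_le_ncard hsub hfin

/-- `b (x ^ 4 - b ^ 2 y ^ 4)` is the area of a right triangle with rational sides -/
theorem triangle {n b x y : ℕ} (hn : 0 < n) (hb : 0 < b) (hx : 0 < x) (hy : 0 < y)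
    (h : (n : ℤ) = b * ((x : ℤ) ^ 4 - b ^ 2 * (y : ℤ) ^ 4)) :
    ∃ u v w : ℚ, 0 < u ∧ 0 < v ∧ 0 < w ∧ u ^ 2 + v ^ 2 = w ^ 2 ∧ u * v / 2 = (n : ℚ) := by
  have hb' : (0 : ℚ) < b := by exact_mod_cast hb
  have hx' : (0 : ℚ) < x := by exact_mod_cast hx
  have hy' : (0 : ℚ) < y := by exact_mod_cast hy
  have hn' : (0 : ℚ) < n := by exact_mod_cast hn
  have h' : (n : ℚ) = b * ((x : ℚ) ^ 4 - b ^ 2 * (y : ℚ) ^ 4) := by exact_mod_cast h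
  have hpos : (0 : ℚ) < (x : ℚ) ^ 4 - b ^ 2 * (y : ℚ) ^ 4 := by
    rw [h'] at hn'
    exact (mul_pos_iff_of_pos_left hb').1 hn'
  refine ⟨((x : ℚ) ^ 4 - b ^ 2 * (y : ℚ) ^ 4) / (x * y), 2 * b * x * y,
    ((x : ℚ) ^ 4 + b ^ 2 * (y : ℚ) ^ 4) / (x * y), by positivity, by positivity, by positivity,
    ?_, ?_⟩
  · field_simp
    ring
  · rw [h']
    field_simp

/-- `b (x ^ 4 - b ^ 2 y ^ 4)` is a congruent number -/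
theorem squares {n b x y : ℕ} (hn : 0 < n) (hb : 0 < b) (hx : 0 < x) (hy : 0 < y)
    (h : (n : ℤ) = b * ((x : ℤ) ^ 4 - b ^ 2 * (y : ℤ) ^ 4)) :
    ∃ X Y Z T : ℕ, 0 < X ∧ 0 < Y ∧ 0 < Z ∧ 0 < T ∧
      X ^ 2 + n * Y ^ 2 = Z ^ 2 ∧ X ^ 2 = n * Y ^ 2 + T ^ 2 := by
  set p : ℤ := (x : ℤ) ^ 2 with hp
  set q : ℤ := b * (y : ℤ) ^ 2 with hq
  have hp0 : 0 < p := by positivity
  have hq0 : 0 < q := by positivity
  have hn0 : (0 : ℤ) < n := by exact_mod_cast hn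
  have hpq : 0 < p ^ 2 - q ^ 2 := by
    have h1 : (n : ℤ) = b * (p ^ 2 - q ^ 2) := by rw [h, hp, hq]; ring
    rw [h1] at hn0
    have hb0 : (0 : ℤ) < b := by exact_mod_cast hb
    exact (mul_pos_iff_of_pos_left hb0).1 hn0
  have hT : p ^ 2 - q ^ 2 - 2 * p * q ≠ 0 := by
    intro h0
    have h1 : (p - q) ^ 2 = 2 * q ^ 2 := by linarith [h0, (by ring :
      (p - q) ^ 2 - 2 * q ^ 2 = p ^ 2 - q ^ 2 - 2 * p * q)]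
    have h2 : Irrational (Real.sqrt 2) := irrational_sqrt_two
    apply h2
    refine ⟨|(p - q : ℚ) / q|, ?_⟩
    have hq1 : (q : ℝ) ≠ 0 := by exact_mod_cast hq0.ne'
    have h3 : (((p : ℝ) - q) / q) ^ 2 = 2 := by
      rw [div_pow, div_eq_iff (pow_ne_zero 2 hq1)]
      exact_mod_cast h1
    push_cast
    rw [← Real.sqrt_sq_eq_abs, h3]
  refine ⟨(p ^ 2 + q ^ 2).natAbs, 2 * x * y, (p ^ 2 - q ^ 2 + 2 * p * q).natAbs,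
    (p ^ 2 - q ^ 2 - 2 * p * q).natAbs, ?_, by positivity, ?_, ?_, ?_, ?_⟩
  · exact Int.natAbs_pos.2 (by positivity)
  · exact Int.natAbs_pos.2 (by positivity)
  · exact Int.natAbs_pos.2 hT
  · zify
    rw [sq_abs, sq_abs, h, hp, hq]
    ring
  · zify
    rw [sq_abs, sq_abs, h, hp, hq]
    ring

end Pool.Agent.U334.CC
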