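import Pool.Agent.U334.CC.Count

/-!
# Clusters of squarefree congruent numbers: main theorems

`P` is a property of natural numbers which holds for all positive integers of the form
`b (x ^ 4 - b ^ 2 y ^ 4)` (for example: to be a congruent number).
-/

set_option autoImplicit false

open Finset

namespace Pool.Agent.U334.CC

theorem ok_exists {b M z : ℕ} (hb : Squarefree b) (hM : 1 ≤ M) (hbz : b ≤ z) (hMz : M ≤ z)
    (hz : 2 ≤ z) : Ok b (M * z.factorial) z where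
  hb := hb
  hb1 := Nat.one_le_iff_ne_zero.2 hb.ne_zero
  hQ := by
    have h1 : z ≤ z.factorial := Nat.self_le_factorial z
    calc 2 ≤ z.factorial := by omega
      _ ≤ M * z.factorial := Nat.le_mul_of_pos_left _ (by omega)
  hbQ := (Nat.dvd_factorial (Nat.pos_of_ne_zero hb.ne_zero) hbz).mul_left M
  hz := hz
  small := fun p hp hpz => (((hp.dvd_factorial).2 hpz)).mul_left M
  large := fun p hp h => by
    rcases (hp.dvd_mul).1 h with h | h
    · exact (Nat.le_of_dvd (by omega) h).trans hMz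
    · exact (hp.dvd_factorial).1 h

/-- the value as a natural number -/
def vv (b Q t w : ℕ) : ℕ := b * (1 + Q * t) ^ 4 - b ^ 3 * (Q * w) ^ 4

theorem vv_lt {b Q t w : ℕ} (hb : 1 ≤ b) (h : b * w < t) :
    b ^ 3 * (Q * w) ^ 4 < b * (1 + Q * t) ^ 4 := by
  have h1 : b * (Q * w) < 1 + Q * t := by
    calc b * (Q * w) = Q * (b * w) := by ring
      _ ≤ Q * t := Nat.mul_le_mul_left _ h.le
      _ < 1 + Q * t := by omega
  have h2 : (b * (Q * w)) ^ 4 < (1 + Q * t) ^ 4 := Nat.pow_lt_pow_left h1 (by norm_num)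
  calc b ^ 3 * (Q * w) ^ 4 ≤ b ^ 5 * (Q * w) ^ 4 :=
        Nat.mul_le_mul_right _ (Nat.pow_le_pow_right hb (by norm_num))
    _ = b * (b * (Q * w)) ^ 4 := by ring
    _ < b * (1 + Q * t) ^ 4 := Nat.mul_lt_mul_of_pos_left h2 (by omega)

theorem vv_cast {b Q t w : ℕ} (hb : 1 ≤ b) (h : b * w < t) :
    ((vv b Q t w : ℕ) : ℤ) = nn b Q t w := by
  unfold vv
  rw [Nat.cast_sub (vv_lt hb h).le]
  unfold nn fA fB xx
  push_cast
  ring

theorem vv_form {b Q t w : ℕ} (hb : 1 ≤ b) (h : b * w < t) :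
    ((vv b Q t w : ℕ) : ℤ) = b * (((1 + Q * t : ℕ) : ℤ) ^ 4 - b ^ 2 * ((Q * w : ℕ) : ℤ) ^ 4) := by
  unfold vv
  rw [Nat.cast_sub (vv_lt hb h).le]
  push_cast
  ring

theorem vv_mod {b Q t w M : ℕ} (hb : 1 ≤ b) (h : b * w < t) (hM : M ∣ Q) :
    vv b Q t w ≡ b [MOD M] := by
  have h1 : (Q : ℤ) ∣ ((vv b Q t w : ℕ) : ℤ) - b := by
    rw [vv_form hb h]
    refine ⟨b * (4 * t + 6 * Q * t ^ 2 + 4 * Q ^ 2 * t ^ 3 + Q ^ 3 * t ^ 4) - b ^ 3 * Q ^ 3 * w ^ 4,
      ?_⟩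
    push_cast
    ring
  have h2 : (M : ℤ) ∣ ((vv b Q t w : ℕ) : ℤ) - b := (by exact_mod_cast hM : (M : ℤ) ∣ Q).trans h1
  exact ((Nat.modEq_iff_dvd).2 h2).symm

theorem vv_inj {b Q t w w' : ℕ} (hb : 1 ≤ b) (hQ : 1 ≤ Q) (h : b * w < t) (h' : b * w' < t)
    (he : vv b Q t w = vv b Q t w') : w = w' := by
  have h1 := vv_lt (Q := Q) hb h
  have h2 := vv_lt (Q := Q) hb h'
  unfold vv at he
  have h3 : b ^ 3 * (Q * w) ^ 4 = b ^ 3 * (Q * w') ^ 4 := by omega
  have h4 : (Q * w) ^ 4 = (Q * w') ^ 4 := Nat.eq_of_mul_eq_mul_left (by positivity) h3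
  have h5 : Q * w = Q * w' := Nat.pow_left_injective (by norm_num) h4
  exact Nat.eq_of_mul_eq_mul_left (by omega) h5

theorem vv_inj_t {b Q t t' w : ℕ} (hb : 1 ≤ b) (hQ : 1 ≤ Q) (h : b * w < t) (h' : b * w < t')
    (he : vv b Q t w = vv b Q t' w) : t = t' := by
  have h1 := vv_lt (Q := Q) hb h
  have h2 := vv_lt (Q := Q) hb h'
  unfold vv at he
  have h3 : b * (1 + Q * t) ^ 4 = b * (1 + Q * t') ^ 4 := by omega
  have h4 : (1 + Q * t) ^ 4 = (1 + Q * t') ^ 4 := Nat.eq_of_mul_eq_mul_left (by omega) h3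
  have h5 : 1 + Q * t = 1 + Q * t' := Nat.pow_left_injective (by norm_num) h4
  exact Nat.eq_of_mul_eq_mul_left (by omega) (by omega : Q * t = Q * t')

theorem card_quarter (T : ℕ) (S : Finset ℕ) (hS : S ⊆ Icc 1 T) :
    (S.card : ℝ) - T / 4 ≤ ((S.filter fun t => T < 4 * t).card : ℝ) := by
  have h1 := Finset.card_filter_add_card_filter_not (s := S) (fun t => T < 4 * t)
  have h2 : (S.filter fun t => ¬ T < 4 * t).card ≤ T / 4 := by
    have h3 : (S.filter fun t => ¬ T < 4 * t) ⊆ Icc 1 (T / 4) := by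
      intro t ht
      obtain ⟨h4, h5⟩ := Finset.mem_filter.1 ht
      have := Finset.mem_Icc.1 (hS h4)
      exact Finset.mem_Icc.2 ⟨this.1, by omega⟩
    simpa using Finset.card_le_card h3
  have h3 : ((S.filter fun t => ¬ T < 4 * t).card : ℝ) ≤ (T : ℝ) / 4 :=
    (Nat.cast_le.2 h2).trans (by exact_mod_cast (Nat.cast_div_le : ((T / 4 : ℕ) : ℝ) ≤ T / (4 : ℕ)))
  have h4 : ((S.filter fun t => T < 4 * t).card : ℝ) + (S.filter fun t => ¬ T < 4 * t).card =
      S.card := by exact_mod_cast h1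
  linarith

/-- the choice of `T` for given `X` -/
theorem choose_T {b Q : ℕ} (hb : 1 ≤ b) (hQ : 1 ≤ Q) (T0 : ℕ) {X : ℝ}
    (hX : ((2 * Q * b * (T0 + 4) : ℕ) : ℝ) ^ 4 ≤ X) :
    ∃ T : ℕ, T0 ≤ T ∧ 1 ≤ T ∧ X ^ (1 / 4 : ℝ) / (2 * (2 * Q * b)) ≤ T ∧
      ((b * (1 + Q * T) ^ 4 : ℕ) : ℝ) ≤ X := by
  set D : ℕ := 2 * Q * b with hD
  have hD1 : 1 ≤ D := by
    rw [hD]
    have : 1 ≤ Q * b := Nat.one_le_iff_ne_zero.2 (Nat.mul_ne_zero (by omega) (by omega))
    calc 1 ≤ Q * b := this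
      _ ≤ 2 * (Q * b) := by omega
      _ = 2 * Q * b := by ring
  have hDr : (1 : ℝ) ≤ D := by exact_mod_cast hD1
  have hX0 : 0 ≤ X := le_trans (by positivity) hX
  set Y : ℝ := X ^ (1 / 4 : ℝ) with hY
  have hY0 : 0 ≤ Y := Real.rpow_nonneg hX0 _
  have hY4 : Y ^ 4 = X := by
    rw [hY, ← Real.rpow_natCast, ← Real.rpow_mul hX0]
    norm_num
  have hYD : ((D * (T0 + 4) : ℕ) : ℝ) ≤ Y := by
    apply le_of_pow_le_pow_left₀ (n := 4) (by norm_num) hY0
    rw [hY4]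
    exact hX
  have h1 : (T0 : ℝ) + 4 ≤ Y / D := by
    rw [le_div_iff₀ (by linarith)]
    push_cast at hYD
    linarith
  refine ⟨⌊Y / D⌋₊, ?_, ?_, ?_, ?_⟩
  · apply Nat.le_floor
    linarith
  · apply Nat.le_floor
    push_cast
    have : (0 : ℝ) ≤ T0 := by positivity
    linarith
  · have h2 := Nat.lt_floor_add_one (Y / D)
    have h3 : Y / (2 * D) = (Y / D) / 2 := by field_simp
    have h4 : (0 : ℝ) ≤ T0 := by positivity
    have h5 : ((2 : ℝ) * (2 * Q * b)) = 2 * D := by rw [hD]; push_cast; ring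
    rw [h5, h3]
    linarith
  · have h2 : ((⌊Y / D⌋₊ : ℕ) : ℝ) ≤ Y / D := Nat.floor_le (by positivity)
    set T := ⌊Y / D⌋₊ with hT
    have hT1 : 1 ≤ T := by
      apply Nat.le_floor
      push_cast
      have : (0 : ℝ) ≤ T0 := by positivity
      linarith
    have h3 : (D : ℝ) * T ≤ Y := by
      rw [le_div_iff₀ (by linarith)] at h2
      linarith
    have h4 : 1 + Q * T ≤ 2 * Q * T := by
      have : 1 ≤ Q * T := Nat.one_le_iff_ne_zero.2 (Nat.mul_ne_zero (by omega) (by omega))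
      calc 1 + Q * T ≤ Q * T + Q * T := by omega
        _ = 2 * Q * T := by ring
    have h5 : b * (1 + Q * T) ^ 4 ≤ (D * T) ^ 4 := by
      calc b * (1 + Q * T) ^ 4 ≤ b ^ 4 * (2 * Q * T) ^ 4 := by
            apply Nat.mul_le_mul
            · calc b = b ^ 1 := (pow_one b).symm
                _ ≤ b ^ 4 := Nat.pow_le_pow_right hb (by norm_num)
            · exact Nat.pow_le_pow_left h4 4
        _ = (D * T) ^ 4 := by rw [hD]; ring
    calc ((b * (1 + Q * T) ^ 4 : ℕ) : ℝ) ≤ (((D * T) ^ 4 : ℕ) : ℝ) := by exact_mod_cast h5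
      _ = ((D : ℝ) * T) ^ 4 := by push_cast; ring
      _ ≤ Y ^ 4 := by gcongr
      _ = X := hY4

/-- **Uniform clusters.** -/
theorem uniform {b M : ℕ} (hb : Squarefree b) (hM : 1 ≤ M) (P : ℕ → Prop)
    (hP : ∀ n b x y : ℕ, 0 < n → 0 < b → 0 < x → 0 < y →
      (n : ℤ) = b * ((x : ℤ) ^ 4 - b ^ 2 * (y : ℤ) ^ 4) → P n) :
    ∃ C : ℕ, ∃ c : ℝ, 0 < c ∧ ∃ X₀ : ℝ, ∀ X : ℝ, X₀ ≤ X → ∀ K : ℕ, 1 ≤ K →
      (K : ℝ) ≤ c * X ^ (1 / 4 : ℝ) →
      c * X ^ (1 / 4 : ℝ) ≤ ({Z : ℕ | (Z : ℝ) ≤ X ∧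
        K ≤ {n : ℕ | Z ≤ n ∧ n ≤ Z + C * K ^ 4 ∧ Squarefree n ∧ n ≡ b [MOD M] ∧ P n}.ncard}.ncard
          : ℝ) := by
  classical
  have hb1 : 1 ≤ b := Nat.one_le_iff_ne_zero.2 hb.ne_zero
  set z := 48 + b + M with hz
  set Q := M * z.factorial with hQdef
  have ok : Ok b Q z := ok_exists hb hM (by omega) (by omega) (by omega)
  have hQ1 : 1 ≤ Q := by have := ok.hQ; omega
  have hMQ : M ∣ Q := Dvd.intro _ rfl
  obtain ⟨T0, hT0⟩ := Filter.eventually_atTop.1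
    (pi_small b Q hb1 hQ1 (ε := 1 / 32) (by norm_num))
  have hbr : (1 : ℝ) ≤ b := by exact_mod_cast hb1
  have hQr : (1 : ℝ) ≤ Q := by exact_mod_cast hQ1
  refine ⟨16 * b ^ 3 * Q ^ 4, 1 / (16 * b * (2 * Q * b)), by positivity,
    ((2 * Q * b * (T0 + 4) : ℕ) : ℝ) ^ 4, ?_⟩
  intro X hX K hK hKX
  obtain ⟨T, hT, hT1, hTY, hTX⟩ := choose_T hb1 hQ1 T0 hX
  have hX0 : 0 ≤ X := le_trans (by positivity) hX
  set Y : ℝ := X ^ (1 / 4 : ℝ) with hY
  have hY0 : 0 ≤ Y := Real.rpow_nonneg hX0 _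
  have hpi := hT0 T hT
  have hTr : (1 : ℝ) ≤ T := by exact_mod_cast hT1
  -- `8 b K ≤ T`
  have h8 : 8 * b * K ≤ T := by
    have h1 : (8 : ℝ) * b * K ≤ 8 * b * (1 / (16 * b * (2 * Q * b)) * Y) := by gcongr
    have h2 : (8 : ℝ) * b * (1 / (16 * b * (2 * Q * b)) * Y) = Y / (2 * (2 * Q * b)) := by
      field_simp
      ring
    have h3 : ((8 * b * K : ℕ) : ℝ) ≤ T := by
      push_cast
      linarith
    exact_mod_cast h3
  have hWT : 2 * K ≤ T := by
    calc 2 * K ≤ 8 * b * K := Nat.mul_le_mul_right _ (by omega)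
      _ ≤ T := h8
  have hhalf := card_half ok (T := T) (W := 2 * K) (by omega) hWT
  have hzr : (48 : ℝ) ≤ z := by
    have : 48 ≤ z := by omega
    exact_mod_cast this
  have h12 : (12 : ℝ) * T / z ≤ T / 4 := by
    rw [div_le_div_iff₀ (by linarith) (by norm_num)]
    nlinarith
  have hhalf2 : (T : ℝ) / 2 ≤ (Half b Q T (2 * K)).card := by
    have h1 : (8 : ℝ) * (Nat.primeCounting (2 * b * (1 + Q * T)) : ℝ) ≤ T / 4 := by linarith
    linarith
  set G := (Half b Q T (2 * K)).filter fun t => T < 4 * t with hG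
  have hGc : (T : ℝ) / 4 ≤ G.card := by
    have h1 := card_quarter T (Half b Q T (2 * K)) (by unfold Half; exact Finset.filter_subset _ _)
    linarith
  have hGt : ∀ t ∈ G, t ≤ T ∧ b * (2 * K) < t ∧ 2 * K ≤ 2 * gd b Q (2 * K) t := by
    intro t ht
    obtain ⟨h1, h2⟩ := Finset.mem_filter.1 ht
    unfold Half at h1
    obtain ⟨h3, h4⟩ := Finset.mem_filter.1 h1
    refine ⟨(Finset.mem_Icc.1 h3).2, ?_, h4⟩
    have h5 : 4 * (b * (2 * K)) = 8 * b * K := by ring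
    omega
  set S := {Z : ℕ | (Z : ℝ) ≤ X ∧ K ≤ {n : ℕ | Z ≤ n ∧ n ≤ Z + 16 * b ^ 3 * Q ^ 4 * K ^ 4 ∧
    Squarefree n ∧ n ≡ b [MOD M] ∧ P n}.ncard} with hS
  have hSfin : S.Finite := by
    apply (Set.finite_Iic ⌊X⌋₊).subset
    intro Z hZ
    exact Nat.le_floor hZ.1
  have hsub : ((G.image fun t => vv b Q t (2 * K) : Finset ℕ) : Set ℕ) ⊆ S := by
    intro Z hZ
    rw [Finset.mem_coe] at hZ
    obtain ⟨t, ht, rfl⟩ := Finset.mem_image.1 hZ
    obtain ⟨g1, g2, g3⟩ := hGt t ht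
    refine ⟨?_, ?_⟩
    · have h1 : vv b Q t (2 * K) ≤ b * (1 + Q * T) ^ 4 := by
        unfold vv
        refine (Nat.sub_le _ _).trans ?_
        apply Nat.mul_le_mul_left
        apply Nat.pow_le_pow_left
        have := Nat.mul_le_mul_left Q g1
        omega
      calc ((vv b Q t (2 * K) : ℕ) : ℝ) ≤ ((b * (1 + Q * T) ^ 4 : ℕ) : ℝ) := by exact_mod_cast h1
        _ ≤ X := hTX
    · set R := {n : ℕ | vv b Q t (2 * K) ≤ n ∧ n ≤ vv b Q t (2 * K) + 16 * b ^ 3 * Q ^ 4 * K ^ 4 ∧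
        Squarefree n ∧ n ≡ b [MOD M] ∧ P n} with hR
      have hRfin : R.Finite := by
        apply (Set.finite_Iic (vv b Q t (2 * K) + 16 * b ^ 3 * Q ^ 4 * K ^ 4)).subset
        intro n hn
        exact hn.2.1
      set I := (Icc 1 (2 * K)).filter fun w => Squarefree (nn b Q t w).natAbs with hI
      have hIc : K ≤ I.card := by
        have h1 : I.card = gd b Q (2 * K) t := by
          unfold gd
          rw [hI]
        omega
      have hIw : ∀ w ∈ I, 1 ≤ w ∧ w ≤ 2 * K ∧ b * w < t ∧ Squarefree (vv b Q t w) := by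
        intro w hw
        obtain ⟨h1, h2⟩ := Finset.mem_filter.1 hw
        rw [Finset.mem_Icc] at h1
        have h3 : b * w < t := lt_of_le_of_lt (Nat.mul_le_mul_left b h1.2) g2
        refine ⟨h1.1, h1.2, h3, ?_⟩
        rw [← vv_cast hb1 h3, Int.natAbs_natCast] at h2
        exact h2
      have hsub2 : ((I.image fun w => vv b Q t w : Finset ℕ) : Set ℕ) ⊆ R := by
        intro n hn
        rw [Finset.mem_coe] at hn
        obtain ⟨w, hw, rfl⟩ := Finset.mem_image.1 hn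
        obtain ⟨k1, k2, k3, k4⟩ := hIw w hw
        have e1 := vv_lt (Q := Q) hb1 k3
        have e2 := vv_lt (Q := Q) hb1 g2
        have e3 : b ^ 3 * (Q * w) ^ 4 ≤ b ^ 3 * (Q * (2 * K)) ^ 4 := by gcongr
        have e4 : b ^ 3 * (Q * (2 * K)) ^ 4 = 16 * b ^ 3 * Q ^ 4 * K ^ 4 := by ring
        refine ⟨?_, ?_, k4, vv_mod hb1 k3 hMQ, ?_⟩
        · unfold vv
          omega
        · rw [← e4]
          unfold vv
          omega
        · refine hP _ b (1 + Q * t) (Q * w) ?_ (by omega) (by omega) ?_ (vv_form hb1 k3)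
          · unfold vv
            omega
          · exact Nat.mul_pos (by omega) (by omega)
      calc K ≤ I.card := hIc
        _ = (I.image fun w => vv b Q t w).card := by
            rw [Finset.card_image_of_injOn]
            intro w hw w' hw' he
            exact vv_inj hb1 hQ1 (hIw w (Finset.mem_coe.1 hw)).2.2.1
              (hIw w' (Finset.mem_coe.1 hw')).2.2.1 he
        _ = ((I.image fun w => vv b Q t w : Finset ℕ) : Set ℕ).ncard :=
            (Set.ncard_coe_finset _).symm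
        _ ≤ R.ncard := Set.ncard_le_ncard hsub2 hRfin
  have hcard : G.card ≤ S.ncard := by
    calc G.card = (G.image fun t => vv b Q t (2 * K)).card := by
          rw [Finset.card_image_of_injOn]
          intro t ht t' ht' he
          exact vv_inj_t hb1 hQ1 (hGt t (Finset.mem_coe.1 ht)).2.1
            (hGt t' (Finset.mem_coe.1 ht')).2.1 he
      _ = ((G.image fun t => vv b Q t (2 * K) : Finset ℕ) : Set ℕ).ncard :=
          (Set.ncard_coe_finset _).symm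
      _ ≤ S.ncard := Set.ncard_le_ncard hsub hSfin
  have h1 : (1 : ℝ) / (16 * b * (2 * Q * b)) * Y ≤ (T : ℝ) / 4 := by
    have h2 : (1 : ℝ) / (16 * b * (2 * Q * b)) * Y ≤ (Y / (2 * (2 * Q * b))) / 4 := by
      rw [div_div, one_div_mul_eq_div]
      apply div_le_div_of_nonneg_left hY0 (by positivity)
      have : (0 : ℝ) < 2 * Q * b := by positivity
      nlinarith
    linarith
  calc (1 : ℝ) / (16 * b * (2 * Q * b)) * Y ≤ (T : ℝ) / 4 := h1
    _ ≤ G.card := hGc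
    _ ≤ S.ncard := by exact_mod_cast hcard

/-- **Fixed patterns.** -/
theorem pattern {b M : ℕ} (hb : Squarefree b) (hM : 1 ≤ M) (P : ℕ → Prop)
    (hP : ∀ n b x y : ℕ, 0 < n → 0 < b → 0 < x → 0 < y →
      (n : ℤ) = b * ((x : ℤ) ^ 4 - b ^ 2 * (y : ℤ) ^ 4) → P n) (K : ℕ) (hK : 1 ≤ K) :
    ∃ H : Finset ℕ, H.card = K ∧ ∃ c : ℝ, 0 < c ∧ ∃ X₀ : ℝ, ∀ X : ℝ, X₀ ≤ X →
      c * X ^ (1 / 4 : ℝ) ≤ ({n : ℕ | (n : ℝ) ≤ X ∧
        ∀ h ∈ H, Squarefree (n + h) ∧ n + h ≡ b [MOD M] ∧ P (n + h)}.ncard : ℝ) := by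
  classical
  have hb1 : 1 ≤ b := Nat.one_le_iff_ne_zero.2 hb.ne_zero
  set z := 24 * K + b + M with hz
  set Q := M * z.factorial with hQdef
  have ok : Ok b Q z := ok_exists hb hM (by omega) (by omega) (by omega)
  have hQ1 : 1 ≤ Q := by have := ok.hQ; omega
  have hMQ : M ∣ Q := Dvd.intro _ rfl
  have hKr : (1 : ℝ) ≤ K := by exact_mod_cast hK
  obtain ⟨T0, hT0⟩ := Filter.eventually_atTop.1
    (pi_small b Q hb1 hQ1 (ε := 1 / (16 * K)) (by positivity))
  have hbr : (1 : ℝ) ≤ b := by exact_mod_cast hb1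
  have hQr : (1 : ℝ) ≤ Q := by exact_mod_cast hQ1
  refine ⟨(Icc 1 K).image fun w => b ^ 3 * Q ^ 4 * (K ^ 4 - w ^ 4), ?_,
    1 / (16 * b * (2 * Q * b)), by positivity,
    ((2 * Q * b * (T0 + 4 * b * K + 4) : ℕ) : ℝ) ^ 4, ?_⟩
  · rw [Finset.card_image_of_injOn]
    · simp
    · intro w hw w' hw' he
      have h1 := Finset.mem_Icc.1 (Finset.mem_coe.1 hw)
      have h2 := Finset.mem_Icc.1 (Finset.mem_coe.1 hw')
      have h3 : K ^ 4 - w ^ 4 = K ^ 4 - w' ^ 4 := Nat.eq_of_mul_eq_mul_left (by positivity) he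
      have h4 : w ^ 4 ≤ K ^ 4 := Nat.pow_le_pow_left h1.2 4
      have h5 : w' ^ 4 ≤ K ^ 4 := Nat.pow_le_pow_left h2.2 4
      have h6 : w ^ 4 = w' ^ 4 := by omega
      exact Nat.pow_left_injective (by norm_num) h6
  intro X hX
  obtain ⟨T, hT, hT1, hTY, hTX⟩ := choose_T hb1 hQ1 (T0 + 4 * b * K) hX
  have hX0 : 0 ≤ X := le_trans (by positivity) hX
  set Y : ℝ := X ^ (1 / 4 : ℝ) with hY
  have hY0 : 0 ≤ Y := Real.rpow_nonneg hX0 _
  have hpi := hT0 T (by omega)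
  have hTr : (1 : ℝ) ≤ T := by exact_mod_cast hT1
  have hKT : K ≤ T := by
    calc K ≤ 4 * b * K := Nat.le_mul_of_pos_left _ (by omega)
      _ ≤ T := by omega
  have hall := card_all ok (T := T) (W := K) hKT
  have hzr : (24 : ℝ) * K ≤ z := by
    have : 24 * K ≤ z := by omega
    exact_mod_cast this
  have h12 : (6 : ℝ) * K * T / z ≤ T / 4 := by
    rw [div_le_div_iff₀ (by linarith) (by norm_num)]
    nlinarith
  have hall2 : (T : ℝ) / 2 ≤ (All b Q T K).card := by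
    have h1 : (4 : ℝ) * K * (Nat.primeCounting (2 * b * (1 + Q * T)) : ℝ) ≤ T / 4 := by
      calc (4 : ℝ) * K * (Nat.primeCounting (2 * b * (1 + Q * T)) : ℝ) ≤
            4 * K * (1 / (16 * K) * T) := by gcongr
        _ = T / 4 := by field_simp; ring
    linarith
  set G := (All b Q T K).filter fun t => T < 4 * t with hG
  have hGc : (T : ℝ) / 4 ≤ G.card := by
    have h1 := card_quarter T (All b Q T K) (by
      intro t ht
      unfold All at ht
      simp only [Finset.mem_filter] at ht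
      exact ht.1)
    linarith
  have hGt : ∀ t ∈ G, t ≤ T ∧ b * K < t ∧ ∀ w ∈ Icc 1 K, Squarefree (nn b Q t w).natAbs := by
    intro t ht
    obtain ⟨h1, h2⟩ := Finset.mem_filter.1 ht
    unfold All at h1
    simp only [Finset.mem_filter] at h1
    obtain ⟨h3, h4⟩ := h1
    refine ⟨(Finset.mem_Icc.1 h3).2, ?_, h4⟩
    have h5 : 4 * (b * K) = 4 * b * K := by ring
    omega
  set S := {n : ℕ | (n : ℝ) ≤ X ∧ ∀ h ∈ (Icc 1 K).image fun w => b ^ 3 * Q ^ 4 * (K ^ 4 - w ^ 4),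
    Squarefree (n + h) ∧ n + h ≡ b [MOD M] ∧ P (n + h)} with hS
  have hSfin : S.Finite := by
    apply (Set.finite_Iic ⌊X⌋₊).subset
    intro Z hZ
    exact Nat.le_floor hZ.1
  have hsub : ((G.image fun t => vv b Q t K : Finset ℕ) : Set ℕ) ⊆ S := by
    intro Z hZ
    rw [Finset.mem_coe] at hZ
    obtain ⟨t, ht, rfl⟩ := Finset.mem_image.1 hZ
    obtain ⟨g1, g2, g3⟩ := hGt t ht
    refine ⟨?_, ?_⟩
    · have h1 : vv b Q t K ≤ b * (1 + Q * T) ^ 4 := by
        unfold vv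
        refine (Nat.sub_le _ _).trans ?_
        apply Nat.mul_le_mul_left
        apply Nat.pow_le_pow_left
        have := Nat.mul_le_mul_left Q g1
        omega
      calc ((vv b Q t K : ℕ) : ℝ) ≤ ((b * (1 + Q * T) ^ 4 : ℕ) : ℝ) := by exact_mod_cast h1
        _ ≤ X := hTX
    · intro h hh
      obtain ⟨w, hw, rfl⟩ := Finset.mem_image.1 hh
      have hw' := Finset.mem_Icc.1 hw
      have k3 : b * w < t := lt_of_le_of_lt (Nat.mul_le_mul_left b hw'.2) g2
      have e1 := vv_lt (Q := Q) hb1 k3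
      have e2 := vv_lt (Q := Q) hb1 g2
      have e3 : b ^ 3 * (Q * w) ^ 4 ≤ b ^ 3 * (Q * K) ^ 4 := by gcongr; exact hw'.2
      have e5 : w ^ 4 ≤ K ^ 4 := Nat.pow_le_pow_left hw'.2 4
      have e4 : vv b Q t K + b ^ 3 * Q ^ 4 * (K ^ 4 - w ^ 4) = vv b Q t w := by
        have e6 : b ^ 3 * Q ^ 4 * (K ^ 4 - w ^ 4) = b ^ 3 * (Q * K) ^ 4 - b ^ 3 * (Q * w) ^ 4 := by
          rw [Nat.mul_sub]
          congr 1 <;> ring
        rw [e6]
        unfold vv
        omega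
      rw [e4]
      refine ⟨?_, vv_mod hb1 k3 hMQ, ?_⟩
      · have h2 := g3 w hw
        rw [← vv_cast hb1 k3, Int.natAbs_natCast] at h2
        exact h2
      · refine hP _ b (1 + Q * t) (Q * w) ?_ (by omega) (by omega) ?_ (vv_form hb1 k3)
        · unfold vv
          omega
        · exact Nat.mul_pos (by omega) (by omega)
  have hcard : G.card ≤ S.ncard := by
    calc G.card = (G.image fun t => vv b Q t K).card := by
          rw [Finset.card_image_of_injOn]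
          intro t ht t' ht' he
          exact vv_inj_t hb1 hQ1 (hGt t (Finset.mem_coe.1 ht)).2.1
            (hGt t' (Finset.mem_coe.1 ht')).2.1 he
      _ = ((G.image fun t => vv b Q t K : Finset ℕ) : Set ℕ).ncard :=
          (Set.ncard_coe_finset _).symm
      _ ≤ S.ncard := Set.ncard_le_ncard hsub hSfin
  have h1 : (1 : ℝ) / (16 * b * (2 * Q * b)) * Y ≤ (T : ℝ) / 4 := by
    have h2 : (1 : ℝ) / (16 * b * (2 * Q * b)) * Y ≤ (Y / (2 * (2 * Q * b))) / 4 := by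
      rw [div_div, one_div_mul_eq_div]
      apply div_le_div_of_nonneg_left hY0 (by positivity)
      have : (0 : ℝ) < 2 * Q * b := by positivity
      nlinarith
    linarith
  calc (1 : ℝ) / (16 * b * (2 * Q * b)) * Y ≤ (T : ℝ) / 4 := h1
    _ ≤ G.card := hGc
    _ ≤ S.ncard := by exact_mod_cast hcard

end Pool.Agent.U334.CC
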