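import Pool.Agent.U334.CC.Main

/-!
# Clusters of squarefree congruent numbers in short intervals: the count
-/

set_option autoImplicit false

open Finset

namespace Pool.Agent.U334.CC

theorem card_le_of_modEq' {S : Finset ℕ} {A N m : ℕ} (hS : S ⊆ Ioc A (A + N))
    (h : ∀ s ∈ S, ∀ t ∈ S, s ≡ t [MOD m]) : S.card ≤ N / m + 1 := by
  have h1 : (S.image fun s => s - A).card = S.card := by
    apply Finset.card_image_of_injOn
    intro s hs t ht he
    have h2 := Finset.mem_Ioc.1 (hS hs)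
    have h3 := Finset.mem_Ioc.1 (hS ht)
    simp only at he
    omega
  rw [← h1]
  apply card_le_of_modEq
  · intro y hy
    obtain ⟨s, hs, rfl⟩ := Finset.mem_image.1 hy
    have := Finset.mem_Ioc.1 (hS hs)
    exact Finset.mem_Icc.2 ⟨by omega, by omega⟩
  · intro y hy y' hy'
    obtain ⟨s, hs, rfl⟩ := Finset.mem_image.1 hy
    obtain ⟨t, ht, rfl⟩ := Finset.mem_image.1 hy'
    have h2 := Finset.mem_Ioc.1 (hS hs)
    have h3 := Finset.mem_Ioc.1 (hS ht)
    have h4 := h s hs t ht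
    have e1 : (s - A) + A = s := by omega
    have e2 : (t - A) + A = t := by omega
    rw [← e1, ← e2] at h4
    exact Nat.ModEq.add_right_cancel' A h4

/-- the number of `t` in a short interval with `p ^ 2 ∣ x ^ 2 - c` -/
theorem card_sq' {Q p A N : ℕ} (hp : p.Prime) (hpQ : ¬ p ∣ Q) (hp2 : p ≠ 2) (c : ℤ)
    (hc : ¬ (p : ℤ) ∣ c) :
    ((Ioc A (A + N)).filter fun t => ((p ^ 2 : ℕ) : ℤ) ∣ xx Q t ^ 2 - c).card ≤
      2 * (N / p ^ 2 + 1) := by
  classical
  set S := (Ioc A (A + N)).filter fun t => ((p ^ 2 : ℕ) : ℤ) ∣ xx Q t ^ 2 - c with hS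
  have hpp : Prime (p : ℤ) := Nat.prime_iff_prime_int.1 hp
  rcases S.eq_empty_or_nonempty with h0 | ⟨t0, ht0⟩
  · rw [h0]; simp
  have hx0 : ((p ^ 2 : ℕ) : ℤ) ∣ xx Q t0 ^ 2 - c := (Finset.mem_filter.1 ht0).2
  have hpx : ¬ (p : ℤ) ∣ xx Q t0 := by
    intro h
    apply hc
    have h1 : (p : ℤ) ∣ xx Q t0 ^ 2 - c := (by push_cast; exact dvd_pow_self _ two_ne_zero :
      (p : ℤ) ∣ ((p ^ 2 : ℕ) : ℤ)).trans hx0
    have h2 : (p : ℤ) ∣ xx Q t0 ^ 2 := dvd_pow h two_ne_zero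
    have h3 := dvd_sub h2 h1
    have h4 : xx Q t0 ^ 2 - (xx Q t0 ^ 2 - c) = c := by ring
    rwa [h4] at h3
  set S1 := S.filter fun t => ((p ^ 2 : ℕ) : ℤ) ∣ xx Q t - xx Q t0 with hS1
  set S2 := S.filter fun t => ((p ^ 2 : ℕ) : ℤ) ∣ xx Q t + xx Q t0 with hS2
  have hsub : S ⊆ S1 ∪ S2 := by
    intro t ht
    have hxt : ((p ^ 2 : ℕ) : ℤ) ∣ xx Q t ^ 2 - c := (Finset.mem_filter.1 ht).2
    have h1 : ((p ^ 2 : ℕ) : ℤ) ∣ (xx Q t - xx Q t0) * (xx Q t + xx Q t0) := by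
      have h2 := dvd_sub hxt hx0
      have h3 : xx Q t ^ 2 - c - (xx Q t0 ^ 2 - c) = (xx Q t - xx Q t0) * (xx Q t + xx Q t0) := by
        ring
      rwa [h3] at h2
    by_cases h2 : (p : ℤ) ∣ xx Q t - xx Q t0
    · have h3 : ¬ (p : ℤ) ∣ xx Q t + xx Q t0 := by
        intro h4
        have h5 := dvd_sub h4 h2
        have h6 : xx Q t + xx Q t0 - (xx Q t - xx Q t0) = 2 * xx Q t0 := by ring
        rw [h6] at h5
        rcases hpp.dvd_or_dvd h5 with h7 | h7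
        · have h8 : p ∣ 2 := by exact_mod_cast h7
          exact hp2 ((Nat.prime_dvd_prime_iff_eq hp Nat.prime_two).1 h8)
        · exact hpx h7
      have h4 : IsCoprime (((p ^ 2 : ℕ)) : ℤ) (xx Q t + xx Q t0) := by
        push_cast
        exact IsCoprime.pow_left ((Prime.coprime_iff_not_dvd hpp).2 h3)
      have h5 := h4.dvd_of_dvd_mul_right h1
      exact Finset.mem_union_left _ (Finset.mem_filter.2 ⟨ht, h5⟩)
    · have h4 : IsCoprime (((p ^ 2 : ℕ)) : ℤ) (xx Q t - xx Q t0) := by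
        push_cast
        exact IsCoprime.pow_left ((Prime.coprime_iff_not_dvd hpp).2 h2)
      have h5 := h4.dvd_of_dvd_mul_left h1
      exact Finset.mem_union_right _ (Finset.mem_filter.2 ⟨ht, h5⟩)
  have hc1 : S1.card ≤ N / p ^ 2 + 1 := by
    apply card_le_of_modEq' (A := A)
      ((Finset.filter_subset _ _).trans (Finset.filter_subset _ _))
    intro s hs t ht
    have h1 := (Finset.mem_filter.1 hs).2
    have h2 := (Finset.mem_filter.1 ht).2
    have h3 := dvd_sub h1 h2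
    have h4 : xx Q s - xx Q t0 - (xx Q t - xx Q t0) = (Q : ℤ) * ((s : ℤ) - t) := by
      unfold xx; ring
    rw [h4] at h3
    exact dvd_sub_iff (cop hp hpQ 2) h3
  have hc2 : S2.card ≤ N / p ^ 2 + 1 := by
    apply card_le_of_modEq' (A := A)
      ((Finset.filter_subset _ _).trans (Finset.filter_subset _ _))
    intro s hs t ht
    have h1 := (Finset.mem_filter.1 hs).2
    have h2 := (Finset.mem_filter.1 ht).2
    have h3 := dvd_sub h1 h2
    have h4 : xx Q s + xx Q t0 - (xx Q t + xx Q t0) = (Q : ℤ) * ((s : ℤ) - t) := by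
      unfold xx; ring
    rw [h4] at h3
    exact dvd_sub_iff (cop hp hpQ 2) h3
  calc S.card ≤ (S1 ∪ S2).card := Finset.card_le_card hsub
    _ ≤ S1.card + S2.card := Finset.card_union_le _ _
    _ ≤ 2 * (N / p ^ 2 + 1) := by omega

/-- two solutions of `x ^ 2 + D = m p ^ 2` with the same `m` are far from each other -/
theorem gap {x1 x2 p1 p2 m D : ℤ} (hx1 : 0 < x1) (hx : x1 < x2) (hp1 : 0 < p1) (hp2 : 0 < p2)
    (hm : 0 < m) (hD : D ≠ 0) (h1 : x1 ^ 2 + D = m * p1 ^ 2) (h2 : x2 ^ 2 + D = m * p2 ^ 2)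
    (hs : 2 * |D| * (x2 - x1) < x1) : False := by
  have hD1 : 1 ≤ |D| := Int.one_le_abs hD
  have hp : p1 < p2 := by
    by_contra hcon
    push Not at hcon
    have h3 : p2 ^ 2 ≤ p1 ^ 2 := pow_le_pow_left₀ hp2.le hcon 2
    have h4 : m * p2 ^ 2 ≤ m * p1 ^ 2 := mul_le_mul_of_nonneg_left h3 hm.le
    have h5 : x1 ^ 2 < x2 ^ 2 := pow_lt_pow_left₀ hx hx1.le two_ne_zero
    linarith
  have key : (x1 * p2 - x2 * p1) * (x1 * p2 + x2 * p1) = -D * (p2 ^ 2 - p1 ^ 2) := by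
    linear_combination p2 ^ 2 * h1 - p1 ^ 2 * h2
  have hpp : 0 < p2 ^ 2 - p1 ^ 2 := by
    have := pow_lt_pow_left₀ hp hp1.le two_ne_zero
    linarith
  have ne : x1 * p2 - x2 * p1 ≠ 0 := by
    intro h0
    rw [h0, zero_mul] at key
    have := mul_ne_zero (neg_ne_zero.2 hD) hpp.ne'
    exact this key.symm
  have hx2 : 0 < x2 := hx1.trans hx
  have hsum : 0 < x1 * p2 + x2 * p1 := by positivity
  have h3 : x1 * p2 + x2 * p1 ≤ |D| * (p2 ^ 2 - p1 ^ 2) := by
    have h4 := congrArg abs key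
    rw [abs_mul, abs_mul, abs_neg, abs_of_pos hsum, abs_of_pos hpp] at h4
    rw [← h4]
    have h5 : 1 ≤ |x1 * p2 - x2 * p1| := Int.one_le_abs ne
    nlinarith
  have h4 : x1 ≤ |D| * (p2 - p1) := by
    have h5 : x1 * (p1 + p2) ≤ x1 * p2 + x2 * p1 := by nlinarith
    have h6 : x1 * (p1 + p2) ≤ (|D| * (p2 - p1)) * (p1 + p2) := by
      calc x1 * (p1 + p2) ≤ |D| * (p2 ^ 2 - p1 ^ 2) := h5.trans h3
        _ = (|D| * (p2 - p1)) * (p1 + p2) := by ring
    exact le_of_mul_le_mul_right h6 (by positivity)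
  have h2D : 2 * |D| < x1 := by nlinarith
  have hDn : -|D| ≤ D := neg_abs_le D
  have h5 : x1 + x2 ≤ 2 * m * (p1 + p2) := by
    have h6 : (x1 + x2) ^ 2 ≤ (2 * m * (p1 + p2)) ^ 2 := by
      have h7 : (x1 + x2) ^ 2 ≤ 4 * (x1 ^ 2 + x2 ^ 2 + 2 * D) := by
        nlinarith [sq_nonneg (x1 - x2), mul_pos hx1 hx1]
      have h8 : 0 ≤ x1 ^ 2 + x2 ^ 2 + 2 * D := by nlinarith
      have h9 : 4 * (x1 ^ 2 + x2 ^ 2 + 2 * D) ≤ 4 * m * (x1 ^ 2 + x2 ^ 2 + 2 * D) := by
        have : (1 : ℤ) ≤ m := hm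
        nlinarith
      have h10 : 4 * m * (x1 ^ 2 + x2 ^ 2 + 2 * D) = 4 * m ^ 2 * (p1 ^ 2 + p2 ^ 2) := by
        linear_combination 4 * m * h1 + 4 * m * h2
      have h11 : 4 * m ^ 2 * (p1 ^ 2 + p2 ^ 2) ≤ (2 * m * (p1 + p2)) ^ 2 := by
        have h12 : (2 * m * (p1 + p2)) ^ 2 = 4 * m ^ 2 * (p1 ^ 2 + p2 ^ 2) +
            4 * m ^ 2 * (2 * (p1 * p2)) := by ring
        rw [h12]
        have : 0 ≤ 4 * m ^ 2 * (2 * (p1 * p2)) := by positivity
        linarith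
      linarith
    exact (pow_le_pow_iff_left₀ (by linarith) (by positivity) two_ne_zero).1 h6
  have h6 : p2 - p1 ≤ 2 * (x2 - x1) := by
    have h7 : (x2 - x1) * (x2 + x1) = m * (p2 - p1) * (p1 + p2) := by
      linear_combination h2 - h1
    have h8 : (p2 - p1) * (x1 + x2) ≤ (2 * (x2 - x1)) * (x1 + x2) := by
      calc (p2 - p1) * (x1 + x2) ≤ (p2 - p1) * (2 * m * (p1 + p2)) :=
            mul_le_mul_of_nonneg_left h5 (by linarith)
        _ = 2 * (m * (p2 - p1) * (p1 + p2)) := by ring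
        _ = 2 * ((x2 - x1) * (x2 + x1)) := by rw [h7]
        _ = (2 * (x2 - x1)) * (x1 + x2) := by ring
    exact le_of_mul_le_mul_right h8 (by linarith)
  have h7 : |D| * (p2 - p1) ≤ |D| * (2 * (x2 - x1)) := mul_le_mul_of_nonneg_left h6 (by linarith)
  linarith

open scoped Classical in
/-- large primes: at most one `t` for each cofactor -/
theorem card_big {Q T N L C : ℕ} (c : ℤ) (hQ : 1 ≤ Q) (hL : 1 ≤ L) (hc : c ≠ 0)
    (hcN : 2 * |c| * N ≤ T) (hN : 1 ≤ N) (hC : 2 * (1 + Q * (T + N)) ^ 2 ≤ C * L ^ 6) :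
    ((Ioc T (T + N)).filter fun t => ∃ p : ℕ, L ^ 2 < p ∧
      ((p ^ 2 : ℕ) : ℤ) ∣ xx Q t ^ 2 - c).card ≤ C * L ^ 2 := by
  have hc1 : 1 ≤ |c| := Int.one_le_abs hc
  have hNz : (1 : ℤ) ≤ N := by exact_mod_cast hN
  have hQz : (1 : ℤ) ≤ Q := by exact_mod_cast hQ
  have hcT : 2 * |c| ≤ T := by nlinarith
  set S := (Ioc T (T + N)).filter fun t => ∃ p : ℕ, L ^ 2 < p ∧
      ((p ^ 2 : ℕ) : ℤ) ∣ xx Q t ^ 2 - c with hS
  have hx : ∀ t ∈ S, (T : ℤ) < xx Q t ∧ (t : ℤ) < xx Q t := by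
    intro t ht
    have h1 := Finset.mem_Ioc.1 (Finset.mem_filter.1 ht).1
    have h2 : (T : ℤ) < t := by exact_mod_cast h1.1
    unfold xx
    constructor <;> nlinarith
  have hex : ∀ t ∈ S, ∃ m : ℕ, ∃ p : ℕ, 0 < m ∧ 0 < p ∧ xx Q t ^ 2 - c = m * (p : ℤ) ^ 2 ∧
      m ≤ C * L ^ 2 := by
    intro t ht
    obtain ⟨h1, p, hpL, hp⟩ := Finset.mem_filter.1 ht
    have h1' := Finset.mem_Ioc.1 h1
    obtain ⟨m, hm⟩ := hp
    push_cast at hm
    obtain ⟨g1, g2⟩ := hx t ht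
    have hT0 : (0 : ℤ) ≤ T := by positivity
    have hpos : 0 < xx Q t ^ 2 - c := by
      have := le_abs_self c
      nlinarith
    have hp0 : 0 < p := by omega
    have hpz : (0 : ℤ) < p := by exact_mod_cast hp0
    have hm0 : 0 < m := by
      rw [hm] at hpos
      exact (mul_pos_iff_of_pos_left (by positivity)).1 hpos
    refine ⟨m.toNat, p, by omega, hp0, ?_, ?_⟩
    · rw [Int.toNat_of_nonneg hm0.le, hm]; ring
    · have h2 : xx Q t ≤ 1 + Q * (T + N) := by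
        unfold xx
        have h3 : (t : ℤ) ≤ T + N := by exact_mod_cast h1'.2
        have := mul_le_mul_of_nonneg_left h3 (by positivity : (0 : ℤ) ≤ Q)
        linarith
      have h3 : xx Q t ^ 2 ≤ (1 + Q * (T + N)) ^ 2 := pow_le_pow_left₀ (by linarith) h2 2
      have h4 : m * (p : ℤ) ^ 2 ≤ C * L ^ 6 := by
        have h5 : (2 : ℤ) * (1 + Q * (T + N)) ^ 2 ≤ C * L ^ 6 := by exact_mod_cast hC
        have h6 : -c ≤ xx Q t ^ 2 := by
          have := neg_le_abs c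
          nlinarith
        have h7 : m * (p : ℤ) ^ 2 = xx Q t ^ 2 - c := by rw [hm]; ring
        linarith
      have h5 : m * (L : ℤ) ^ 4 ≤ (C * L ^ 2) * L ^ 4 := by
        have h6 : (L : ℤ) ^ 4 ≤ (p : ℤ) ^ 2 := by
          have h7 : (L : ℤ) ^ 2 ≤ p := by exact_mod_cast hpL.le
          have h8 := pow_le_pow_left₀ (by positivity) h7 2
          calc (L : ℤ) ^ 4 = ((L : ℤ) ^ 2) ^ 2 := by ring
            _ ≤ _ := h8
        calc m * (L : ℤ) ^ 4 ≤ m * (p : ℤ) ^ 2 := mul_le_mul_of_nonneg_left h6 hm0.le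
          _ ≤ C * L ^ 6 := h4
          _ = _ := by ring
      have hL0 : (0 : ℤ) < L := by exact_mod_cast hL
      have h6 : m ≤ C * L ^ 2 := le_of_mul_le_mul_right h5 (by positivity)
      zify
      rw [Int.toNat_of_nonneg hm0.le]
      exact h6
  choose! m hm using hex
  have hmaps : ∀ t ∈ S, m t ∈ Icc 1 (C * L ^ 2) := by
    intro t ht
    obtain ⟨p, h1, -, -, h2⟩ := hm t ht
    exact Finset.mem_Icc.2 ⟨h1, h2⟩
  have hlt : ∀ s ∈ S, ∀ t ∈ S, s < t → m s = m t → False := by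
    intro s hs t ht hst he
    obtain ⟨p, h1, hp, h2, -⟩ := hm s hs
    obtain ⟨q, h3, hq, h4, -⟩ := hm t ht
    rw [he] at h2
    have hs' := Finset.mem_Ioc.1 (Finset.mem_filter.1 hs).1
    have ht' := Finset.mem_Ioc.1 (Finset.mem_filter.1 ht).1
    have hstz : (s : ℤ) + 1 ≤ t := by exact_mod_cast hst
    have hdiff : xx Q t - xx Q s = Q * ((t : ℤ) - s) := by unfold xx; ring
    have hTs : (T : ℤ) < s := by exact_mod_cast hs'.1
    have hts : (t : ℤ) - s ≤ N := by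
      have h5 : (t : ℤ) ≤ T + N := by exact_mod_cast ht'.2
      linarith
    have hT0 : (0 : ℤ) ≤ T := by positivity
    obtain ⟨g1, g2⟩ := hx s hs
    refine gap (x1 := xx Q s) (x2 := xx Q t) (p1 := p) (p2 := q) (m := m t) (D := -c)
      (by linarith) ?_ (by exact_mod_cast hp) (by exact_mod_cast hq) (by exact_mod_cast h3)
      (neg_ne_zero.2 hc) (by linarith) (by linarith) ?_
    · have h6 : 0 < (Q : ℤ) * ((t : ℤ) - s) := mul_pos (by linarith) (by linarith)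
      linarith
    · rw [abs_neg, hdiff]
      have h6 : (2 * |c|) * ((Q : ℤ) * ((t : ℤ) - s)) ≤ Q * (2 * |c| * N) := by
        have h7 : 2 * |c| * ((t : ℤ) - s) ≤ 2 * |c| * N :=
          mul_le_mul_of_nonneg_left hts (by positivity)
        calc (2 * |c|) * ((Q : ℤ) * ((t : ℤ) - s)) = Q * (2 * |c| * ((t : ℤ) - s)) := by ring
          _ ≤ _ := mul_le_mul_of_nonneg_left h7 (by positivity)
      have h7 : (Q : ℤ) * (2 * |c| * N) ≤ Q * s :=
        mul_le_mul_of_nonneg_left (by linarith) (by positivity)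
      have h8 : xx Q s = 1 + Q * s := rfl
      linarith
  have hinj : Set.InjOn m (S : Set ℕ) := by
    intro s hs t ht he
    rcases lt_trichotomy s t with h | h | h
    · exact (hlt s hs t ht h he).elim
    · exact h
    · exact (hlt t ht s hs h he.symm).elim
  have := Finset.card_le_card_of_injOn m hmaps hinj
  simpa using this

end Pool.Agent.U334.CC
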