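import Pool.Agent.U334.CC.Short

/-!
# Clusters of squarefree congruent numbers in short intervals: the pattern theorem
-/

set_option autoImplicit false

open Finset

namespace Pool.Agent.U334.CC

open scoped Classical in
/-- the bad `t` in a short interval, for one `w` and one sign -/
theorem card_one {b Q z T N L C w : ℕ} (ok : Ok b Q z) (e : ℤ) (he : e = 1 ∨ e = -1)
    (hw : 1 ≤ w) (hwz : w ≤ z) (hL : 1 ≤ L) (hN : 1 ≤ N)
    (hcN : 2 * (b * (Q * w) ^ 2) * N ≤ T) (hC : 2 * (1 + Q * (T + N)) ^ 2 ≤ C * L ^ 6) :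
    (((Ioc T (T + N)).filter fun t => ∃ p : ℕ, p.Prime ∧ z < p ∧
      ((p ^ 2 : ℕ) : ℤ) ∣ xx Q t ^ 2 - e * (b * (Q * w) ^ 2)).card : ℝ) ≤
      2 * N / z + 2 * L ^ 2 + C * L ^ 2 := by
  set c : ℤ := e * (b * (Q * w) ^ 2) with hc
  have hQ2 := ok.hQ
  have hb1 := ok.hb1
  have hz2 := ok.hz
  have hD0 : (0 : ℤ) < b * ((Q : ℤ) * w) ^ 2 := by
    have h1 : (0 : ℤ) < b := by exact_mod_cast hb1
    have h2 : (0 : ℤ) < Q := by exact_mod_cast (by omega : 0 < Q)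
    have h3 : (0 : ℤ) < w := by exact_mod_cast hw
    positivity
  have hcabs : |c| = b * ((Q : ℤ) * w) ^ 2 := by
    rcases he with h | h
    · rw [hc, h, one_mul, abs_of_pos hD0]
    · rw [hc, h, neg_one_mul, abs_neg, abs_of_pos hD0]
  have hc0 : c ≠ 0 := by
    intro h
    rw [h, abs_zero] at hcabs
    linarith
  set S := (Ioc T (T + N)).filter fun t => ∃ p : ℕ, p.Prime ∧ z < p ∧
      ((p ^ 2 : ℕ) : ℤ) ∣ xx Q t ^ 2 - c with hS
  have hsub : S ⊆ ((PP z (L ^ 2)).biUnion fun p => (Ioc T (T + N)).filter fun t =>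
      ((p ^ 2 : ℕ) : ℤ) ∣ xx Q t ^ 2 - c) ∪ ((Ioc T (T + N)).filter fun t => ∃ p : ℕ, L ^ 2 < p ∧
      ((p ^ 2 : ℕ) : ℤ) ∣ xx Q t ^ 2 - c) := by
    intro t ht
    obtain ⟨h1, p, hp, hpz, hpd⟩ := Finset.mem_filter.1 ht
    rcases le_or_gt p (L ^ 2) with h | h
    · refine Finset.mem_union_left _ (Finset.mem_biUnion.2 ⟨p, ?_, ?_⟩)
      · exact Finset.mem_filter.2 ⟨Finset.mem_Ioc.2 ⟨hpz, h⟩, hp⟩
      · exact Finset.mem_filter.2 ⟨h1, hpd⟩
    · exact Finset.mem_union_right _ (Finset.mem_filter.2 ⟨h1, p, h, hpd⟩)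
  have hbig := card_big (Q := Q) (T := T) (N := N) (L := L) (C := C) c (by omega) hL hc0
    (by rw [hcabs]; exact_mod_cast hcN) hN hC
  have hsmall : ∀ p ∈ PP z (L ^ 2), (((Ioc T (T + N)).filter fun t =>
      ((p ^ 2 : ℕ) : ℤ) ∣ xx Q t ^ 2 - c).card : ℝ) ≤ 2 * N * ((p : ℝ) ^ 2)⁻¹ + 2 := by
    intro p hp
    obtain ⟨h1, hpp'⟩ := Finset.mem_filter.1 hp
    have hpz := (Finset.mem_Ioc.1 h1).1
    have hpQ : ¬ p ∣ Q := fun h => absurd (ok.large p hpp' h) (by omega)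
    have hpb : ¬ p ∣ b := fun h => hpQ (h.trans ok.hbQ)
    have hpw : ¬ p ∣ w := fun h => by have := Nat.le_of_dvd (by omega) h; omega
    have hpp : Prime (p : ℤ) := Nat.prime_iff_prime_int.1 hpp'
    have hnc : ¬ (p : ℤ) ∣ c := by
      intro h
      have h2 : (p : ℤ) ∣ b * ((Q : ℤ) * w) ^ 2 := by
        rw [← hcabs]; exact (dvd_abs _ _).2 h
      rcases hpp.dvd_or_dvd h2 with h6 | h6
      · exact hpb (by exact_mod_cast h6)
      · have h7 := hpp.dvd_of_dvd_pow h6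
        rcases hpp.dvd_or_dvd h7 with h8 | h8
        · exact hpQ (by exact_mod_cast h8)
        · exact hpw (by exact_mod_cast h8)
    have h2 := card_sq' (A := T) (N := N) hpp' hpQ (by omega) c hnc
    have h3 : ((N / p ^ 2 : ℕ) : ℝ) ≤ (N : ℝ) * ((p : ℝ) ^ 2)⁻¹ := by
      have := @Nat.cast_div_le ℝ _ _ _ N (p ^ 2)
      rw [← div_eq_mul_inv]
      exact_mod_cast this
    have h4 : (((Ioc T (T + N)).filter fun t =>
      ((p ^ 2 : ℕ) : ℤ) ∣ xx Q t ^ 2 - c).card : ℝ) ≤ 2 * (((N / p ^ 2 : ℕ) : ℝ) + 1) := by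
      exact_mod_cast h2
    linarith
  have hcard : (S.card : ℝ) ≤ ∑ p ∈ PP z (L ^ 2), (2 * N * ((p : ℝ) ^ 2)⁻¹ + 2) + C * L ^ 2 := by
    have h1 := (Finset.card_le_card hsub).trans (Finset.card_union_le _ _)
    have h2 : (((PP z (L ^ 2)).biUnion fun p => (Ioc T (T + N)).filter fun t =>
        ((p ^ 2 : ℕ) : ℤ) ∣ xx Q t ^ 2 - c).card : ℝ) ≤
        ∑ p ∈ PP z (L ^ 2), (2 * N * ((p : ℝ) ^ 2)⁻¹ + 2) := by
      calc (((PP z (L ^ 2)).biUnion fun p => (Ioc T (T + N)).filter fun t =>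
        ((p ^ 2 : ℕ) : ℤ) ∣ xx Q t ^ 2 - c).card : ℝ) ≤ ∑ p ∈ PP z (L ^ 2),
          (((Ioc T (T + N)).filter fun t =>
            ((p ^ 2 : ℕ) : ℤ) ∣ xx Q t ^ 2 - c).card : ℝ) := by
            exact_mod_cast Finset.card_biUnion_le
        _ ≤ _ := Finset.sum_le_sum hsmall
    have h3 : (S.card : ℝ) ≤ (((PP z (L ^ 2)).biUnion fun p => (Ioc T (T + N)).filter fun t =>
        ((p ^ 2 : ℕ) : ℤ) ∣ xx Q t ^ 2 - c).card : ℝ) +
        (((Ioc T (T + N)).filter fun t => ∃ p : ℕ, L ^ 2 < p ∧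
          ((p ^ 2 : ℕ) : ℤ) ∣ xx Q t ^ 2 - c).card : ℝ) := by exact_mod_cast h1
    have h4 : (((Ioc T (T + N)).filter fun t => ∃ p : ℕ, L ^ 2 < p ∧
          ((p ^ 2 : ℕ) : ℤ) ∣ xx Q t ^ 2 - c).card : ℝ) ≤ C * L ^ 2 := by exact_mod_cast hbig
    linarith
  have hsumPP := sum_PP (z := z) (N := L ^ 2) (by omega)
  have hPPc : ((PP z (L ^ 2)).card : ℝ) ≤ (L : ℝ) ^ 2 := by
    have h1 : (PP z (L ^ 2)).card ≤ L ^ 2 := by
      unfold PP
      refine (Finset.card_filter_le _ _).trans ?_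
      simp
    exact_mod_cast h1
  rw [Finset.sum_add_distrib, ← Finset.mul_sum, Finset.sum_const, nsmul_eq_mul] at hcard
  have h5 : 2 * (N : ℝ) * ∑ p ∈ PP z (L ^ 2), ((p : ℝ) ^ 2)⁻¹ ≤ 2 * N * (z : ℝ)⁻¹ :=
    mul_le_mul_of_nonneg_left hsumPP (by positivity)
  have h6 : 2 * (N : ℝ) / z = 2 * N * (z : ℝ)⁻¹ := div_eq_mul_inv _ _
  rw [h6]
  linarith

/-- the `t` in a short interval for which all `w` are good -/
noncomputable def AllS (b Q T N W : ℕ) : Finset ℕ := by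
  classical
  exact (Ioc T (T + N)).filter fun t => ∀ w ∈ Icc 1 W, Squarefree (nn b Q t w).natAbs

theorem card_allS {b Q z T N L C K : ℕ} (ok : Ok b Q z) (hKz : K ≤ z)
    (hL : 1 ≤ L) (hN : 1 ≤ N)
    (hcN : 2 * (b * (Q * K) ^ 2) * N ≤ T) (hC : 2 * (1 + Q * (T + N)) ^ 2 ≤ C * L ^ 6) :
    (N : ℝ) - K * (2 * (2 * N / z + 2 * L ^ 2 + C * L ^ 2)) ≤ (AllS b Q T N K).card := by
  classical
  set B : ℕ → ℤ → Finset ℕ := fun w e => (Ioc T (T + N)).filter fun t => ∃ p : ℕ, p.Prime ∧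
    z < p ∧ ((p ^ 2 : ℕ) : ℤ) ∣ xx Q t ^ 2 - e * (b * (Q * w) ^ 2) with hB
  have hsub : (Ioc T (T + N)) \ AllS b Q T N K ⊆ (Icc 1 K).biUnion fun w => B w 1 ∪ B w (-1) := by
    intro t ht
    obtain ⟨h3, h4⟩ := Finset.mem_sdiff.1 ht
    have h5 : ¬ ∀ w ∈ Icc 1 K, Squarefree (nn b Q t w).natAbs := fun h5 =>
      h4 (by unfold AllS; simp only [Finset.mem_filter]; exact ⟨h3, h5⟩)
    push Not at h5
    obtain ⟨w, hw, h6⟩ := h5
    have hw' := Finset.mem_Icc.1 hw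
    obtain ⟨p, hp, hpz, h7⟩ := bad_prime ok h6
    rw [Finset.mem_biUnion]
    refine ⟨w, hw, ?_⟩
    rcases h7 with ⟨h8, -⟩ | ⟨-, h8⟩
    · exfalso
      have := Nat.le_of_dvd (by omega) h8
      omega
    · rcases h8 with h8 | h8
      · refine Finset.mem_union_left _ (Finset.mem_filter.2 ⟨h3, p, hp, hpz, ?_⟩)
        have h9 : xx Q t ^ 2 - 1 * (b * (Q * w) ^ 2) = fA b Q t w := by
          unfold fA; ring
        rw [h9]; exact h8
      · refine Finset.mem_union_right _ (Finset.mem_filter.2 ⟨h3, p, hp, hpz, ?_⟩)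
        have h9 : xx Q t ^ 2 - (-1) * (b * (Q * w) ^ 2) = fB b Q t w := by
          unfold fB; ring
        rw [h9]; exact h8
  have hone : ∀ w ∈ Icc 1 K, ((B w 1 ∪ B w (-1)).card : ℝ) ≤
      2 * (2 * N / z + 2 * L ^ 2 + C * L ^ 2) := by
    intro w hw
    have hw' := Finset.mem_Icc.1 hw
    have hcw : 2 * (b * (Q * w) ^ 2) * N ≤ T := by
      refine le_trans ?_ hcN
      gcongr
      exact hw'.2
    have h1 := card_one (T := T) (N := N) (L := L) (C := C) ok 1 (Or.inl rfl) hw'.1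
      (hw'.2.trans hKz) hL hN hcw hC
    have h2 := card_one (T := T) (N := N) (L := L) (C := C) ok (-1) (Or.inr rfl) hw'.1
      (hw'.2.trans hKz) hL hN hcw hC
    have h3 : ((B w 1 ∪ B w (-1)).card : ℝ) ≤ (B w 1).card + (B w (-1)).card := by
      exact_mod_cast Finset.card_union_le _ _
    have h1' : ((B w 1).card : ℝ) ≤ 2 * N / z + 2 * L ^ 2 + C * L ^ 2 := by
      convert h1 using 2
    have h2' : ((B w (-1)).card : ℝ) ≤ 2 * N / z + 2 * L ^ 2 + C * L ^ 2 := by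
      convert h2 using 2
    linarith
  have h1 : (((Ioc T (T + N)) \ AllS b Q T N K).card : ℝ) ≤
      K * (2 * (2 * N / z + 2 * L ^ 2 + C * L ^ 2)) := by
    calc (((Ioc T (T + N)) \ AllS b Q T N K).card : ℝ) ≤
          (((Icc 1 K).biUnion fun w => B w 1 ∪ B w (-1)).card : ℝ) := by
          exact_mod_cast Finset.card_le_card hsub
      _ ≤ ∑ w ∈ Icc 1 K, ((B w 1 ∪ B w (-1)).card : ℝ) := by
          exact_mod_cast Finset.card_biUnion_le
      _ ≤ ∑ w ∈ Icc 1 K, (2 * (2 * N / z + 2 * L ^ 2 + C * L ^ 2) : ℝ) :=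
          Finset.sum_le_sum hone
      _ = K * (2 * (2 * N / z + 2 * L ^ 2 + C * L ^ 2)) := by
          rw [Finset.sum_const, nsmul_eq_mul]
          simp
  have h4 : N ≤ ((Ioc T (T + N)) \ (AllS b Q T N K)).card + (AllS b Q T N K).card := by
    have := Finset.card_le_card_sdiff_add_card (s := Ioc T (T + N)) (t := AllS b Q T N K)
    simpa using this
  have h5 : (N : ℝ) ≤ (((Ioc T (T + N)) \ (AllS b Q T N K)).card : ℝ) +
      (AllS b Q T N K).card := by exact_mod_cast h4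
  linarith

end Pool.Agent.U334.CC
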