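import Pool.Agent.U334.CC.Final
import Pool.Agent.U334.CC.Short3

/-!
# Clusters of squarefree congruent numbers in short intervals and residue classes
-/

set_option autoImplicit false

open Finset

namespace Pool.Agent.U334.CC

/-- fixed patterns in short intervals in the class of `k` modulo `8` and modulo `M` -/
theorem patternS_class {k M a r : ℕ} (hk : Squarefree k) (hkr : k % 8 = r) (hka : k ≡ a [MOD M])
    (hM : 1 ≤ M) (P : ℕ → Prop)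
    (hP : ∀ n b x y : ℕ, 0 < n → 0 < b → 0 < x → 0 < y →
      (n : ℤ) = b * ((x : ℤ) ^ 4 - b ^ 2 * (y : ℤ) ^ 4) → P n) (K : ℕ) (hK : 1 ≤ K) :
    ∃ H : Finset ℕ, H.card = K ∧ ∃ D X₀ : ℝ, ∀ X : ℝ, X₀ ≤ X →
      1 / 4 * X ^ (1 / 6 : ℝ) ≤ ({n : ℕ | X ≤ (n : ℝ) ∧ (n : ℝ) ≤ X + D * X ^ (11 / 12 : ℝ) ∧
        ∀ h ∈ H, Squarefree (n + h) ∧ (n + h) % 8 = r ∧ n + h ≡ a [MOD M] ∧ P (n + h)}.ncard
          : ℝ) := by
  obtain ⟨H, hH, D, X₀, h⟩ := patternS hk (show 1 ≤ 8 * M by omega) P hP K hK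
  refine ⟨H, hH, D, X₀, fun X hX => (h X hX).trans ?_⟩
  have hfin : {n : ℕ | X ≤ (n : ℝ) ∧ (n : ℝ) ≤ X + D * X ^ (11 / 12 : ℝ) ∧
        ∀ h ∈ H, Squarefree (n + h) ∧ (n + h) % 8 = r ∧ n + h ≡ a [MOD M] ∧
          P (n + h)}.Finite := by
    apply (Set.finite_Iic ⌊X + D * X ^ (11 / 12 : ℝ)⌋₊).subset
    intro Z hZ
    exact Nat.le_floor hZ.2.1
  have hsub : {n : ℕ | X ≤ (n : ℝ) ∧ (n : ℝ) ≤ X + D * X ^ (11 / 12 : ℝ) ∧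
        ∀ h ∈ H, Squarefree (n + h) ∧ n + h ≡ k [MOD 8 * M] ∧ P (n + h)} ⊆
      {n : ℕ | X ≤ (n : ℝ) ∧ (n : ℝ) ≤ X + D * X ^ (11 / 12 : ℝ) ∧
        ∀ h ∈ H, Squarefree (n + h) ∧ (n + h) % 8 = r ∧ n + h ≡ a [MOD M] ∧
          P (n + h)} := by
    rintro n ⟨h0, h1, h2⟩
    refine ⟨h0, h1, fun h hh => ?_⟩
    obtain ⟨g3, g4, g5⟩ := h2 h hh
    have g6 : (n + h) % 8 = k % 8 := g4.of_dvd (Dvd.intro _ rfl)
    exact ⟨g3, by omega, (g4.of_dvd (Dvd.intro_left 8 rfl)).trans hka, g5⟩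
  exact_mod_cast Set.ncard_le_ncard hsub hfin

end Pool.Agent.U334.CC
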